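import Pool.Agent.MP_d91e39_lc.Inst

/-!
The reduction on bit strings.
-/

namespace Pool.Agent.MP_d91e39_lc

open Vtx Kind

/-- Codes of vertices: class, row, column, place. -/
abbrev Cd := ℕ × ℕ × ℕ × ℕ

/-- The code of a vertex. -/
def Vtx.code {n k : ℕ} : Vtx n k → Cd
  | src i j => (0, i, j, 0)
  | snk i j => (5, i, j, 0)
  | ln L i j p => (layK L, i, j, p)

/-- The codes of all vertices. -/
def codes (n k : ℕ) : List Cd :=
  ([1, 2, 3, 4].flatMap fun t => (List.range k).flatMap fun i =>
    (List.range k).flatMap fun j => (List.range (2 * n + 1)).map fun p => (t, i, j, p)) ++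
  (((List.range k).flatMap fun i => (List.range k).map fun j => (0, i, j, 0)) ++
  ((List.range k).flatMap fun i => (List.range k).map fun j => (5, i, j, 0)))

theorem flatMap_finRange {α : Type*} (m : ℕ) (f : ℕ → List α) :
    (List.finRange m).flatMap (fun i : Fin m => f i) = (List.range m).flatMap f := by
  have h : List.range m = (List.finRange m).map Fin.val := by simp
  rw [h, List.flatMap_map]

theorem map_finRange {α : Type*} (m : ℕ) (f : ℕ → α) :
    (List.finRange m).map (fun i : Fin m => f i) = (List.range m).map f := by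
  have h : List.range m = (List.finRange m).map Fin.val := by simp
  rw [h, List.map_map]
  rfl

theorem map_code (n k : ℕ) : (vtxList n k).map Vtx.code = codes n k := by
  unfold vtxList codes
  simp only [List.map_append, List.map_flatMap, List.map_map, Function.comp_def, Vtx.code,
    List.flatMap_cons, List.flatMap_nil, layK]
  have e1 : ∀ t : ℕ, ((List.finRange k).flatMap fun i : Fin k => (List.finRange k).flatMap
      fun j : Fin k => (List.finRange (2 * n + 1)).map fun p : Fin (2 * n + 1) =>
        ((t, (i : ℕ), (j : ℕ), (p : ℕ)) : Cd)) = (List.range k).flatMap fun i =>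
    (List.range k).flatMap fun j => (List.range (2 * n + 1)).map fun p => (t, i, j, p) := by
    intro t
    rw [← flatMap_finRange]
    congr 1
    funext i
    rw [← flatMap_finRange]
    congr 1
    funext j
    rw [← map_finRange]
  have e2 : ∀ t : ℕ, ((List.finRange k).flatMap fun i : Fin k => (List.finRange k).map
      fun j : Fin k => ((t, (i : ℕ), (j : ℕ), 0) : Cd)) = (List.range k).flatMap fun i =>
    (List.range k).map fun j => (t, i, j, 0) := by
    intro t
    rw [← flatMap_finRange]
    congr 1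
    funext i
    rw [← map_finRange]
  rw [e1, e1, e1, e1, e2, e2]
  rfl

theorem code_injective (n k : ℕ) : Function.Injective (Vtx.code : Vtx n k → Cd) := by
  intro u v h
  have h2 : ∀ L L' : Kind, layK L = layK L' → L = L' := by
    intro L L'
    cases L <;> cases L' <;> simp [layK]
  have h0 : ∀ L : Kind, layK L ≠ 0 ∧ layK L ≠ 5 := by
    intro L
    cases L <;> simp [layK]
  cases u with
  | src i j =>
    cases v with
    | src i' j' =>
      simp only [code, Prod.mk.injEq, Fin.val_inj] at h
      rw [h.2.1, h.2.2.1]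
    | snk i' j' => simp [code] at h
    | ln L i' j' p => exact absurd (congrArg Prod.fst h).symm (h0 L).1
  | snk i j =>
    cases v with
    | src i' j' => simp [code] at h
    | snk i' j' =>
      simp only [code, Prod.mk.injEq, Fin.val_inj] at h
      rw [h.2.1, h.2.2.1]
    | ln L i' j' p => exact absurd (congrArg Prod.fst h).symm (h0 L).2
  | ln L i j p =>
    cases v with
    | src i' j' => exact absurd (congrArg Prod.fst h) (h0 L).1
    | snk i' j' => exact absurd (congrArg Prod.fst h) (h0 L).2
    | ln L' i' j' p' =>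
      simp only [code, Prod.mk.injEq, Fin.val_inj] at h
      rw [h2 L L' h.1, h.2.1, h.2.2.1, h.2.2.2]

/-- The cyclic successor. -/
def nxt (k j : ℕ) : ℕ := if j + 1 = k then 0 else j + 1

theorem nxt_eq {k : ℕ} [NeZero k] (j : Fin k) : nxt k j = ((j + 1 : Fin k) : ℕ) := by
  unfold nxt
  have hj := j.isLt
  rw [Fin.val_add, Fin.val_one', Nat.add_mod_mod]
  split_ifs with h
  · rw [h, Nat.mod_self]
  · rw [Nat.mod_eq_of_lt (by omega)]

/-- Is the number odd (and at most `2 n - 1`)? -/
def oddB (n p : ℕ) : Bool := (List.range n).any fun b => decide (p = 2 * b + 1)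

/-- Is the number even (and at most `2 n - 2`)? -/
def evenB (n p : ℕ) : Bool := (List.range n).any fun b => decide (p = 2 * b)

theorem oddB_iff (n p : ℕ) : oddB n p = true ↔ ∃ b : Fin n, p = 2 * (b : ℕ) + 1 := by
  simp only [oddB, List.any_eq_true, List.mem_range, decide_eq_true_eq]
  exact ⟨fun ⟨b, h1, h2⟩ => ⟨⟨b, h1⟩, h2⟩, fun ⟨b, h⟩ => ⟨b, b.isLt, h⟩⟩

theorem evenB_iff (n p : ℕ) : evenB n p = true ↔ ∃ b : Fin n, p = 2 * (b : ℕ) := by
  simp only [evenB, List.any_eq_true, List.mem_range, decide_eq_true_eq]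
  exact ⟨fun ⟨b, h1, h2⟩ => ⟨⟨b, h1⟩, h2⟩, fun ⟨b, h⟩ => ⟨b, b.isLt, h⟩⟩

/-- The environment: `k`, `n`, and the adjacency matrix. -/
abbrev Env := ℕ × ℕ × List Bool

/-- The test for arcs inside a cell. -/
def cellB (e : Env) (i j p q : ℕ) : Bool :=
  (List.range e.2.1).any fun a => (List.range e.2.1).any fun b =>
    decide (p = 2 * a + 1) && (decide (q = 2 * b + 1) &&
      (if i = j then decide (a = b) else e.2.2.getD (a * e.2.1 + b) false))

/-- The test for arcs. -/
def arcB (e : Env) (u v : Cd) : Bool :=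
  (decide (u.2.1 = v.2.1) && (decide (u.2.2.1 = v.2.2.1) &&
    ((decide (u.1 = v.1) && (decide (1 ≤ u.1) && (decide (u.1 ≤ 4) &&
        decide (v.2.2.2 = u.2.2.2 + 1)))) ||
    ((decide (u.1 = 0) && (decide (v.1 = 1) && oddB e.2.1 v.2.2.2)) ||
    ((decide (u.1 = 1) && (decide (v.1 = 2) && (decide (v.2.2.2 = u.2.2.2) &&
        oddB e.2.1 u.2.2.2))) ||
    ((decide (u.1 = 2) && (decide (v.1 = 3) && cellB e u.2.1 u.2.2.1 u.2.2.2 v.2.2.2)) ||
    ((decide (u.1 = 3) && (decide (v.1 = 4) && (decide (v.2.2.2 = u.2.2.2) &&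
        oddB e.2.1 u.2.2.2))) ||
    (decide (u.1 = 4) && (decide (v.1 = 5) && oddB e.2.1 u.2.2.2)))))))))  ||
  ((decide (u.1 = 1) && (decide (v.1 = 2) && (decide (v.2.1 = u.2.1) &&
      (decide (v.2.2.1 = nxt e.1 u.2.2.1) && (decide (v.2.2.2 = u.2.2.2 + 2) &&
        evenB e.2.1 u.2.2.2))))) ||
  (decide (u.1 = 3) && (decide (v.1 = 4) && (decide (v.2.2.1 = u.2.2.1) &&
      (decide (v.2.1 = nxt e.1 u.2.1) && (decide (v.2.2.2 = u.2.2.2 + 2) &&
        evenB e.2.1 u.2.2.2))))))

theorem getD_flatMap_const {α β : Type*} (f : α → List β) (m : ℕ) (d : β) :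
    ∀ (l : List α) (i j : ℕ) (hi : i < l.length), (∀ x, (f x).length = m) → j < m →
      (l.flatMap f).getD (i * m + j) d = (f l[i]).getD j d
  | [], i, j, hi, _, _ => by simp at hi
  | x :: l, i, j, hi, hf, hj => by
    rw [List.flatMap_cons]
    cases i with
    | zero =>
      rw [List.getD_append _ _ _ _ (by rw [hf]; omega)]
      simp
    | succ i =>
      have h1 : (i + 1) * m + j = (f x).length + (i * m + j) := by rw [hf]; ring
      rw [List.getD_append_right _ _ _ _ (by omega), h1, Nat.add_sub_cancel_left]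
      rw [getD_flatMap_const f m d l i j (by simpa using hi) hf hj]
      simp

theorem getD_matrixBits {N : ℕ} (A : Fin N → Fin N → Prop) (u v : Fin N) :
    (matrixBits A).getD ((u : ℕ) * N + v) false = true ↔ A u v := by
  classical
  unfold matrixBits
  rw [getD_flatMap_const _ N false (List.finRange N) u v (by simp) (by simp) v.isLt]
  rw [List.getD_eq_getElem _ _ (by simp)]
  simp

/-- The environment of an instance. -/
noncomputable def envOf (k : ℕ) {n : ℕ} (G : SimpleGraph (Fin n)) : Env := (k, n, matrixBits G.Adj)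

theorem cellB_iff {n k : ℕ} (G : SimpleGraph (Fin n)) (i j : Fin k) (p q : ℕ) :
    cellB (envOf k G) i j p q = true ↔
      ∃ a b : Fin n, p = 2 * (a : ℕ) + 1 ∧ q = 2 * (b : ℕ) + 1 ∧ Allowed G i j a b := by
  simp only [cellB, envOf, List.any_eq_true, List.mem_range, Bool.and_eq_true, decide_eq_true_eq]
  constructor
  · rintro ⟨a, ha, b, hb, h1, h2, h3⟩
    refine ⟨⟨a, ha⟩, ⟨b, hb⟩, h1, h2, ?_⟩
    split_ifs at h3 with h4
    · exact Or.inl ⟨Fin.ext h4, Fin.ext (by simpa using h3)⟩
    · exact Or.inr ⟨fun h => h4 (by rw [h]), (getD_matrixBits G.Adj ⟨a, ha⟩ ⟨b, hb⟩).mp h3⟩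
  · rintro ⟨a, b, h1, h2, h3⟩
    refine ⟨a, a.isLt, b, b.isLt, h1, h2, ?_⟩
    rcases h3 with ⟨rfl, rfl⟩ | ⟨h4, h5⟩
    · simp
    · rw [if_neg (fun h => h4 (Fin.ext h))]
      exact (getD_matrixBits G.Adj a b).mpr h5

theorem arcB_iff {n k : ℕ} [NeZero k] (G : SimpleGraph (Fin n)) (u v : Vtx n k) :
    arcB (envOf k G) u.code v.code = true ↔ Arc G u v := by
  have hk1 : (envOf k G).1 = k := rfl
  have hk2 : (envOf k G).2.1 = n := rfl
  simp only [arcB, hk1, hk2, Bool.or_eq_true, Bool.and_eq_true, decide_eq_true_eq, oddB_iff,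
    evenB_iff]
  constructor
  · intro h
    cases u with
    | src i j =>
      cases v with
      | src i' j' => simp [code] at h
      | snk i' j' => simp [code] at h
      | ln L i' j' p =>
        cases L <;> simp [code, layK] at h
        obtain ⟨h1, h2, b, h3⟩ := h
        rw [Fin.val_inj] at h1 h2
        subst h1 h2
        exact Arc.start i j p b h3
    | snk i j =>
      cases v with
      | src i' j' => simp [code] at h
      | snk i' j' => simp [code] at h
      | ln L i' j' p => cases L <;> simp [code, layK] at h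
    | ln L i j p =>
      cases v with
      | src i' j' => cases L <;> simp [code, layK] at h
      | snk i' j' =>
        cases L <;> simp [code, layK] at h
        obtain ⟨h1, h2, b, h3⟩ := h
        rw [Fin.val_inj] at h1 h2
        subst h1 h2
        exact Arc.stop i j p b h3
      | ln L' i' j' q =>
        have hline : ∀ L : Kind, i = i' ∧ j = j' ∧ (q : ℕ) = p + 1 →
            Arc G (ln L i j p) (ln L i' j' q) := by
          rintro L ⟨rfl, rfl, h3⟩
          exact Arc.line L i j p q h3
        cases L <;> cases L' <;> simp [code, layK, Fin.val_inj] at h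
        · exact hline _ h
        · rcases h with ⟨rfl, rfl, rfl, b, h4⟩ | ⟨rfl, h2, h3, g, h4⟩
          · exact Arc.rowStay _ _ _ b h4
          · rw [nxt_eq, Fin.val_inj] at h2
            subst h2
            exact Arc.rowNext _ _ _ _ g h4 (by omega)
        · exact hline _ h
        · obtain ⟨rfl, rfl, h3⟩ := h
          obtain ⟨a, b, h4, h5, h6⟩ := (cellB_iff G i j p q).mp h3
          exact Arc.cell _ _ _ _ a b h4 h5 h6
        · exact hline _ h
        · rcases h with ⟨rfl, rfl, rfl, b, h4⟩ | ⟨rfl, h2, h3, g, h4⟩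
          · exact Arc.colStay _ _ _ b h4
          · rw [nxt_eq, Fin.val_inj] at h2
            subst h2
            exact Arc.colNext _ _ _ _ g h4 (by omega)
        · exact hline _ h
  · intro h
    cases h with
    | line L i j p q h => cases L <;> simp [code, layK, h]
    | start i j p b hp => simp [code, layK]; exact ⟨b, hp⟩
    | rowStay i j p b hp => simp [code, layK]; exact ⟨b, hp⟩
    | rowNext i j p q g hp hq =>
      simp [code, layK, nxt_eq]
      exact Or.inr ⟨by omega, g, hp⟩
    | cell i j p q a b hp hq h =>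
      simp [code, layK]
      exact (cellB_iff G i j p q).mpr ⟨a, b, hp, hq, h⟩
    | colStay i j p b hp => simp [code, layK]; exact ⟨b, hp⟩
    | colNext i j p q g hp hq =>
      simp [code, layK, nxt_eq]
      exact Or.inr ⟨by omega, g, hp⟩
    | stop i j p b hp => simp [code, layK]; exact ⟨b, hp⟩

end Pool.Agent.MP_d91e39_lc
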