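import Pool.Agent.MP_d91e39_lc.RedPT
import Pool.Agent.Lib.helper60.Compose

/-!
From an algorithm for LINKAGE on acyclic digraphs to an algorithm for CLIQUE.
-/

set_option autoImplicit false

namespace Pool.Agent.MP_d91e39_lc

open Turing Lib.helper60 Computability

/-- The machine `M`, started on the word `x`, halts with output the single bit `b` within `t`
steps. -/
def AnswersIn (M : TM2ComputableAux Bool Bool) (x : List Bool) (b : Bool) (t : ℕ) : Prop :=
  Nonempty (TM2OutputsInTime M.tm (x.map M.inputAlphabet.invFun)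
    (some ((encodeBool b).map M.outputAlphabet.invFun)) t)

open Classical in
/-- The machine `M` solves LINKAGE on every instance `(D, k, S)` with `D` acyclic and
`ea(D) ≤ e`, in time `f(k) * (n + 1) ^ g(ea(D))`. -/
def SolvesAcyclicLinkage (M : TM2ComputableAux Bool Bool) (f g : ℕ → ℕ) (e : ℕ) : Prop :=
  ∀ I : LinkageInst, I.D.Acyclic → I.D.ea ≤ e →
    AnswersIn M I.encode (decide (I.D.HasLinkage I.pairs)) (f I.k * (I.N + 1) ^ g I.D.ea)

open Classical in
/-- The machine `M` solves CLIQUE on every instance `(G, k)` with `k ≥ 2`, in time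
`F(k) * (n + 1) ^ c`. -/
def SolvesClique (M : TM2ComputableAux Bool Bool) (F : ℕ → ℕ) (c : ℕ) : Prop :=
  ∀ I : CliqueInst, AnswersIn M I.encode (decide (∃ s : Finset (Fin I.n), I.G.IsNClique I.k s))
    (F I.k * (I.n + 1) ^ c)

theorem length_matrixBits {N : ℕ} (A : Fin N → Fin N → Prop) :
    (matrixBits A).length = N * N := by
  unfold matrixBits
  simp [List.length_flatMap]

theorem length_encode_le (I : CliqueInst) : I.encode.length ≤ (I.k + 3) * (I.n + 1) ^ 2 := by
  unfold CliqueInst.encode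
  simp only [List.length_append, unary, List.length_replicate, length_matrixBits,
    List.length_singleton]
  nlinarith [Nat.zero_le (I.k * I.n), Nat.zero_le (I.k * (I.n * I.n)), Nat.zero_le I.n,
    Nat.zero_le (I.n * I.n)]

theorem eval_mul_le (P : Polynomial ℕ) (a b : ℕ) (hb : 1 ≤ b) :
    P.eval (a * b) ≤ P.eval a * b ^ P.natDegree := by
  rw [Polynomial.eval_eq_sum_range, Polynomial.eval_eq_sum_range, Finset.sum_mul]
  apply Finset.sum_le_sum
  intro i hi
  rw [Finset.mem_range] at hi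
  rw [mul_pow, mul_assoc]
  apply Nat.mul_le_mul_left
  apply Nat.mul_le_mul_left
  exact Nat.pow_le_pow_right hb (by omega)

theorem answers_comp {M₁ M₂ : TM2ComputableAux Bool Bool} {x y : List Bool} {b : Bool} {t₁ t₂ : ℕ}
    (h1 : Nonempty (TM2OutputsInTime M₁.tm (x.map M₁.inputAlphabet.invFun)
      (some (y.map M₁.outputAlphabet.invFun)) t₁))
    (h2 : AnswersIn M₂ y b t₂) :
    AnswersIn ⟨composeTM M₁.tm M₂.tm (fun z => M₂.inputAlphabet.symm (M₁.outputAlphabet z)),
      M₁.inputAlphabet, M₂.outputAlphabet⟩ x b (t₁ + (2 * (y.length + 1) + t₂)) := by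
  obtain ⟨⟨⟨s1, c1⟩, b1⟩⟩ := h1
  obtain ⟨⟨⟨s2, c2⟩, b2⟩⟩ := h2
  have c1' : stepsN (TM2.step M₁.tm.m) s1 (initList M₁.tm (x.map M₁.inputAlphabet.invFun))
      (haltList M₁.tm (y.map M₁.outputAlphabet.invFun)) := c1
  have c2' : stepsN (TM2.step M₂.tm.m) s2 (initList M₂.tm (y.map M₂.inputAlphabet.invFun))
      (haltList M₂.tm ((encodeBool b).map M₂.outputAlphabet.invFun)) := c2
  have e : (y.map M₁.outputAlphabet.invFun).map
      (fun z => M₂.inputAlphabet.symm (M₁.outputAlphabet z)) =
      y.map M₂.inputAlphabet.invFun := by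
    rw [List.map_map]
    apply List.map_congr_left
    intro z _
    simp
  rw [← e] at c2'
  have c := compose_run M₁.tm M₂.tm (fun z => M₂.inputAlphabet.symm (M₁.outputAlphabet z)) c1' c2'
  refine ⟨⟨⟨_, c⟩, ?_⟩⟩
  simp only [List.length_map]
  have b1' : s1 ≤ t₁ := b1
  have b2' : s2 ≤ t₂ := b2
  omega

theorem AnswersIn.mono {M : TM2ComputableAux Bool Bool} {x : List Bool} {b : Bool} {t t' : ℕ}
    (h : AnswersIn M x b t) (htt : t ≤ t') : AnswersIn M x b t' := by
  obtain ⟨⟨s, b1⟩⟩ := h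
  exact ⟨⟨s, b1.trans htt⟩⟩

theorem length_red_le (h : TM2ComputableInPolyTime CliqueInst.encode LinkageInst.encode red) :
    ∃ Q : Polynomial ℕ, ∀ I : CliqueInst, (red I).encode.length ≤ Q.eval I.encode.length := by
  let iF : Fintype h.tm.Λ := h.tm.ΛFin
  refine ⟨Polynomial.X + Polynomial.C (growth h.tm.m) * h.time, fun I => ?_⟩
  obtain ⟨⟨t1, s1⟩, b1⟩ := h.outputsFun I
  have c1 : stepsN (TM2.step h.tm.m) t1 (initList h.tm (List.map h.inputAlphabet.invFun I.encode))
      (haltList h.tm (List.map h.outputAlphabet.invFun (red I).encode)) := s1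
  have h3 := stepsN_length h.tm.m t1 c1 h.tm.k₁
  have h4 : (haltList h.tm (List.map h.outputAlphabet.invFun (red I).encode)).stk h.tm.k₁ =
      List.map h.outputAlphabet.invFun (red I).encode := by
    rw [haltList_eq]
    exact single_self _ _ _
  have h5 : ((initList h.tm (List.map h.inputAlphabet.invFun I.encode)).stk h.tm.k₁).length ≤
      I.encode.length := by
    rw [initList_eq]
    exact (single_length_le h.tm h.tm.k₀ h.tm.k₁ _).trans (by simp)
  rw [h4] at h3
  have b1' : t1 ≤ h.time.eval I.encode.length := b1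
  have h6 : growth h.tm.m * t1 ≤ growth h.tm.m * h.time.eval I.encode.length :=
    Nat.mul_le_mul_left _ b1'
  simp only [List.length_map] at h3
  simp only [Polynomial.eval_add, Polynomial.eval_mul, Polynomial.eval_X, Polynomial.eval_C]
  omega

theorem clique_of_acyclicLinkage (h : ∃ M f g, SolvesAcyclicLinkage M f g 5) :
    ∃ M F c, SolvesClique M F c := by
  classical
  obtain ⟨M, f, g, hM⟩ := h
  obtain ⟨R⟩ := red_polytime
  obtain ⟨Q, hQ⟩ := length_red_le R
  obtain ⟨c0, hc0⟩ : ∃ c0, ∀ e ≤ 5, g e ≤ c0 :=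
    ⟨(Finset.range 6).sup g, fun e he =>
      Finset.le_sup (f := g) (Finset.mem_range.mpr (by omega))⟩
  let T : Polynomial ℕ := R.time + 2 * (Q + 1)
  refine ⟨⟨composeTM R.tm M.tm (fun z => M.inputAlphabet.symm (R.outputAlphabet z)),
      R.inputAlphabet, M.outputAlphabet⟩,
    fun k => T.eval (k + 3) + f (3 * k ^ 2) * (10 * k ^ 2 + 1) ^ c0,
    2 * T.natDegree + c0, fun I => ?_⟩
  have h1 : Nonempty (TM2OutputsInTime R.tm (I.encode.map R.inputAlphabet.invFun)
      (some ((red I).encode.map R.outputAlphabet.invFun)) (R.time.eval I.encode.length)) :=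
    ⟨R.outputsFun I⟩
  have h2 := hM (red I) (red_acyclic I) (red_ea I)
  have h3 := answers_comp (M₁ := R.toTM2ComputableAux) h1 h2
  have hb : decide ((red I).D.HasLinkage (red I).pairs) =
      decide (∃ s : Finset (Fin I.n), I.G.IsNClique I.k s) := by
    rw [decide_eq_decide, red_correct]
    unfold SimpleGraph.CliqueFree
    push Not
    rfl
  rw [hb] at h3
  refine h3.mono ?_
  have h4 : R.time.eval I.encode.length + 2 * ((red I).encode.length + 1) ≤
      T.eval (I.k + 3) * (I.n + 1) ^ (2 * T.natDegree) := by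
    have h5 : R.time.eval I.encode.length + 2 * ((red I).encode.length + 1) ≤
        T.eval I.encode.length := by
      have := hQ I
      simp only [T, Polynomial.eval_add, Polynomial.eval_mul, Polynomial.eval_one,
        Polynomial.eval_ofNat]
      omega
    have h6 : T.eval I.encode.length ≤ T.eval ((I.k + 3) * (I.n + 1) ^ 2) :=
      evalMono T (length_encode_le I)
    have h7 := eval_mul_le T (I.k + 3) ((I.n + 1) ^ 2) (Nat.one_le_pow _ _ (by omega))
    rw [← pow_mul] at h7
    exact h5.trans (h6.trans h7)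
  have h8 : f (red I).k * ((red I).N + 1) ^ g (red I).D.ea ≤
      f (3 * I.k ^ 2) * (10 * I.k ^ 2 + 1) ^ c0 * (I.n + 1) ^ c0 := by
    rw [red_k, mul_assoc, ← mul_pow]
    apply Nat.mul_le_mul_left
    have h9 : (red I).N + 1 ≤ (10 * I.k ^ 2 + 1) * (I.n + 1) := by
      rw [red_N]
      nlinarith [Nat.zero_le (I.k ^ 2), Nat.zero_le (I.k ^ 2 * I.n), Nat.zero_le I.n]
    calc ((red I).N + 1) ^ g (red I).D.ea ≤ ((red I).N + 1) ^ c0 :=
          Nat.pow_le_pow_right (by omega) (hc0 _ (red_ea I))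
      _ ≤ ((10 * I.k ^ 2 + 1) * (I.n + 1)) ^ c0 := Nat.pow_le_pow_left h9 _
  have h10 : (I.n + 1) ^ (2 * T.natDegree) ≤ (I.n + 1) ^ (2 * T.natDegree + c0) :=
    Nat.pow_le_pow_right (by omega) (by omega)
  have h11 : (I.n + 1) ^ c0 ≤ (I.n + 1) ^ (2 * T.natDegree + c0) :=
    Nat.pow_le_pow_right (by omega) (by omega)
  have h12 := h4.trans (Nat.mul_le_mul_left (T.eval (I.k + 3)) h10)
  have h13 := h8.trans (Nat.mul_le_mul_left (f (3 * I.k ^ 2) * (10 * I.k ^ 2 + 1) ^ c0) h11)
  rw [add_mul]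
  change R.time.eval I.encode.length + (2 * ((red I).encode.length + 1) +
    f (red I).k * ((red I).N + 1) ^ g (red I).D.ea) ≤ _
  omega

end Pool.Agent.MP_d91e39_lc
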