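import Pool.Agent.MP_d91e39_lc.Ear

/-!
A bound for the ear anonymity of layered acyclic digraphs.
-/

namespace Pool.Agent.MP_d91e39_lc

variable {V : Type*}

/-- A layered digraph with layers `0, ..., m`: layers do not decrease along arcs; a vertex has at
most one out-neighbour in its own layer; the arcs leaving layer `0` and the arcs entering layer `m`
change the layer. -/
structure Layered (D : LDigraph V) (m : ℕ) (lay : V → ℕ) (ρ : V → ℕ) : Prop where
  rank : ∀ u v, D.Adj u v → ρ u < ρ v
  mono : ∀ u v, D.Adj u v → lay u ≤ lay v
  uniq : ∀ u v w, D.Adj u v → D.Adj u w → lay v = lay u → lay w = lay u → v = w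
  bot : ∀ u v, D.Adj u v → lay v ≠ 0
  top : ∀ u v, D.Adj u v → lay u ≠ m
  le : ∀ v, lay v ≤ m

namespace Layered

variable {D : LDigraph V} {m : ℕ} {lay ρ : V → ℕ}

theorem lay_le_of_chain (h : Layered D m lay ρ) {u : V} {t : List V}
    (ht : (u :: t).IsChain D.Adj) : ∀ v ∈ u :: t, lay u ≤ lay v := by
  induction t generalizing u with
  | nil =>
    intro v hv
    rw [List.mem_singleton] at hv
    rw [hv]
  | cons x t ih =>
    intro v hv
    rw [List.isChain_cons_cons] at ht
    rw [List.mem_cons] at hv
    rcases hv with rfl | hv
    · exact le_rfl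
    · exact (h.mono _ _ ht.1).trans (ih ht.2 v hv)

theorem lay_le_last (h : Layered D m lay ρ) {w : List V} {z : V} (hw : w.IsChain D.Adj)
    (hz : w.getLast? = some z) : ∀ v ∈ w, lay v ≤ lay z := by
  induction w with
  | nil => intro v hv; simp at hv
  | cons u t ih =>
    intro v hv
    rw [List.mem_cons] at hv
    rcases hv with rfl | hv
    · exact h.lay_le_of_chain hw z (List.mem_of_getLast? hz)
    · match t, hv with
      | x :: t, hv =>
        rw [List.getLast?_cons_cons] at hz
        exact ih (List.IsChain.tail hw) hz v hv

/-- The first relevant arc after `u` starts in the layer of `u`. -/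
theorem exists_key (h : Layered D m lay ρ) {u x : V} {t : List V} {z : V}
    (ht : (u :: x :: t).IsChain D.Adj) (hz : (u :: x :: t).getLast? = some z) :
    ∃ a ∈ arcsOf (u :: x :: t), (lay a.1 < lay a.2 ∨ a.2 = z) ∧ lay a.1 = lay u := by
  induction t generalizing u x with
  | nil =>
    refine ⟨(u, x), by simp, Or.inr ?_, rfl⟩
    simpa using hz
  | cons y t ih =>
    rw [List.isChain_cons_cons] at ht
    by_cases h1 : lay u < lay x
    · exact ⟨(u, x), by simp, Or.inl h1, rfl⟩
    · have h2 : lay x = lay u := le_antisymm (not_lt.mp h1) (h.mono _ _ ht.1)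
      rw [List.getLast?_cons_cons] at hz
      obtain ⟨a, ha, ha1, ha2⟩ := ih ht.2 hz
      refine ⟨a, ?_, ha1, ha2.trans h2⟩
      rw [arcsOf_cons_cons]
      exact List.mem_cons_of_mem _ ha

/-- Two walks from the same vertex coincide if the relevant arcs of the first are arcs of the
second, and the first ends in a vertex without out-neighbours. -/
theorem eq_of_key (h : Layered D m lay ρ) {u : V} {t s : List V} {z : V}
    (ht : (u :: t).IsChain D.Adj) (hs : (u :: s).IsChain D.Adj)
    (hz : (u :: t).getLast? = some z) (hsink : ∀ y, ¬ D.Adj z y)
    (hkey : ∀ a ∈ arcsOf (u :: t), (lay a.1 < lay a.2 ∨ a.2 = z) → a ∈ arcsOf (u :: s)) :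
    t = s := by
  induction t generalizing u s with
  | nil =>
    have hzu : z = u := by simpa using hz.symm
    match s with
    | [] => rfl
    | y :: s =>
      rw [List.isChain_cons_cons] at hs
      exact absurd (hzu ▸ hs.1) (hsink y)
  | cons v t ih =>
    have hnd := nodup_of_rank h.rank ht
    have hnds := nodup_of_rank h.rank hs
    obtain ⟨a, ha, ha1, ha2⟩ := h.exists_key ht hz
    have has := hkey a ha ha1
    match s, hs, hnds, hkey, has with
    | [], _, _, _, has => simp at has
    | w :: s, hs, hnds, hkey, has =>
      rw [List.isChain_cons_cons] at ht hs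
      have hwv : w = v := by
        rw [arcsOf_cons_cons, List.mem_cons] at ha has
        rcases has with has | has
        · rcases ha with ha | ha
          · rw [has] at ha
            exact (Prod.mk.inj ha).2
          · have h3 := fst_mem_of_arc ha
            rw [has] at h3
            exact absurd h3 (List.nodup_cons.mp hnd).1
        · have h3 : a.1 ∈ w :: s := fst_mem_of_arc has
          have h4 : a.1 ≠ u := by
            intro h5
            rw [h5] at h3
            exact (List.nodup_cons.mp hnds).1 h3
          have h6 : lay w ≤ lay a.1 := h.lay_le_of_chain hs.2 _ h3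
          have h7 : lay w = lay u := le_antisymm (h6.trans ha2.le) (h.mono _ _ hs.1)
          rcases ha with ha | ha
          · exact absurd (by rw [ha]) h4
          · have h8 : a.1 ∈ v :: t := fst_mem_of_arc ha
            have h9 : lay v ≤ lay a.1 := h.lay_le_of_chain ht.2 _ h8
            have h10 : lay v = lay u := le_antisymm (h9.trans ha2.le) (h.mono _ _ ht.1)
            exact h.uniq _ _ _ hs.1 ht.1 h7 h10
      subst hwv
      rw [List.getLast?_cons_cons] at hz
      rw [ih ht.2 hs.2 hz ?_]
      intro a ha ha1
      have h3 := hkey a (by rw [arcsOf_cons_cons]; exact List.mem_cons_of_mem _ ha) ha1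
      rw [arcsOf_cons_cons, List.mem_cons] at h3
      rcases h3 with h3 | h3
      · have h4 := fst_mem_of_arc ha
        rw [h3] at h4
        exact absurd h4 (List.nodup_cons.mp hnd).1
      · exact h3

open Classical in
/-- Counting the relevant arcs. -/
theorem count_key (h : Layered D m lay ρ) {u : V} {t : List V} {z : V}
    (ht : (u :: t).IsChain D.Adj) (hz : (u :: t).getLast? = some z) :
    ((arcsOf (u :: t)).filter (fun a => decide (lay a.1 < lay a.2 ∨ a.2 = z))).length + lay u
      ≤ m := by
  induction t generalizing u with
  | nil => simpa using h.le u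
  | cons v t ih =>
    have hnd := nodup_of_rank h.rank ht
    have hadj := (List.isChain_cons_cons.mp ht).1
    have hz' : (v :: t).getLast? = some z := by rwa [List.getLast?_cons_cons] at hz
    have h1 := ih (List.isChain_cons_cons.mp ht).2 hz'
    rw [arcsOf_cons_cons, List.filter_cons]
    by_cases h2 : lay u < lay v
    · simp only [h2, true_or, decide_true, if_true, List.length_cons]
      omega
    have h3 : lay u = lay v := le_antisymm (h.mono _ _ hadj) (not_lt.mp h2)
    by_cases h4 : v = z
    · subst h4
      have h5 : t = [] := by
        rcases List.eq_nil_or_concat t with h5 | ⟨s, x, rfl⟩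
        · exact h5
        · exfalso
          have h8 : x = v := by
            rw [List.concat_eq_append, ← List.cons_append, List.getLast?_concat] at hz'
            exact Option.some_injective _ hz'
          subst h8
          rw [List.nodup_cons, List.nodup_cons] at hnd
          exact hnd.2.1 (by simp)
      subst h5
      have h6 : lay u ≠ m := h.top _ _ hadj
      have h7 := h.le u
      simp
      omega
    · simp only [h2, h4, or_self, decide_false, Bool.false_eq_true, if_false]
      omega

/-- The ear anonymity of a layered digraph with layers `0, ..., m` is at most `m`. -/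
theorem exists_identifying (h : Layered D m lay ρ) {w : List V} (hw : D.IsMaximalEar w)
    (hne : arcsOf w ≠ []) : ∃ σ, D.Identifying w σ ∧ σ.length ≤ m := by
  classical
  have hac := acyclic_of_rank h.rank
  have hpath : ∀ w', D.IsEar w' → D.IsPath w' := fun w' hw' => hw'.resolve_right (hac w')
  obtain ⟨⟨hwne, hch⟩, hnd⟩ := hpath w hw.1
  match w, hne with
  | u :: v :: t, _ =>
    obtain ⟨z, hz⟩ : ∃ z, (u :: v :: t).getLast? = some z :=
      ⟨_, List.getLast?_eq_getLast (by simp)⟩
    -- `u` is a source and `z` is a sink
    have hsource : ∀ x, ¬ D.Adj x u := by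
      intro x hx
      have hch' : (x :: u :: v :: t).IsChain D.Adj := List.isChain_cons_cons.mpr ⟨hx, hch⟩
      have hear : D.IsEar (x :: u :: v :: t) :=
        Or.inl ⟨⟨by simp, hch'⟩, nodup_of_rank h.rank hch'⟩
      have hsub : SubOf (u :: v :: t) (x :: u :: v :: t) := by
        refine ⟨fun y hy => List.mem_cons_of_mem _ hy, fun a ha => ?_⟩
        rw [arcsOf_cons_cons x u]
        exact List.mem_cons_of_mem _ ha
      have h1 := (hw.2 _ hear hsub).1 x (by simp)
      exact (List.nodup_cons.mp (nodup_of_rank h.rank hch')).1 h1
    have hsink : ∀ y, ¬ D.Adj z y := by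
      intro y hy
      have hch' : ((u :: v :: t) ++ [y]).IsChain D.Adj := by
        rw [List.isChain_append]
        refine ⟨hch, List.isChain_singleton _, ?_⟩
        intro a ha b hb
        rw [hz, Option.mem_some_iff] at ha
        rw [List.head?_cons, Option.mem_some_iff] at hb
        rw [← ha, ← hb]
        exact hy
      have hnd' := nodup_of_rank h.rank hch'
      have hear : D.IsEar ((u :: v :: t) ++ [y]) := Or.inl ⟨⟨by simp, hch'⟩, hnd'⟩
      have hsub : SubOf (u :: v :: t) ((u :: v :: t) ++ [y]) := by
        refine ⟨fun x hx => List.mem_append_left _ hx, fun a ha => ?_⟩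
        have key : ∀ l : List V, ∀ a ∈ arcsOf l, a ∈ arcsOf (l ++ [y]) := by
          intro l
          induction l with
          | nil => intro a ha; simp at ha
          | cons x l ih =>
            intro a ha
            match l with
            | [] => simp at ha
            | x' :: l =>
              rw [arcsOf_cons_cons, List.mem_cons] at ha
              rw [List.cons_append, List.cons_append, arcsOf_cons_cons, List.mem_cons]
              rcases ha with ha | ha
              · exact Or.inl ha
              · exact Or.inr (ih a ha)
        exact key _ a ha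
      have h1 := (hw.2 _ hear hsub).1 y (by simp)
      rw [List.nodup_append] at hnd'
      exact hnd'.2.2 y h1 y (by simp) rfl
    set σ := (u, v) :: (arcsOf (v :: t)).filter
      (fun a => decide (lay a.1 < lay a.2 ∨ a.2 = z)) with hσ
    have hσsub : σ.Sublist (arcsOf (u :: v :: t)) := by
      rw [arcsOf_cons_cons, hσ]
      exact List.Sublist.cons_cons _ List.filter_sublist
    refine ⟨σ, ⟨by simp [hσ], ⟨u :: v :: t, hw.1, ⟨fun _ h => h, fun _ h => h⟩,
      ⟨fun _ h => h, fun _ h => h⟩, hσsub⟩, ?_⟩, ?_⟩
    · intro w' hw' hsub
      obtain ⟨⟨_, hch'⟩, _⟩ := hpath w' hw'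
      have huv : (u, v) ∈ arcsOf w' := hsub.subset (by simp [hσ])
      have hu : u ∈ w' := fst_mem_of_arc huv
      -- `w'` starts at `u`
      have hhead : ∃ s, w' = u :: s := by
        match w', hu, hch' with
        | x :: s, hu, hch' =>
          rw [List.mem_cons] at hu
          rcases hu with rfl | hu
          · exact ⟨s, rfl⟩
          · exfalso
            have key : ∀ (s : List V) (x : V), (x :: s).IsChain D.Adj → u ∈ s →
                ∃ y, D.Adj y u := by
              intro s
              induction s with
              | nil => intro x _ hu; simp at hu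
              | cons y s ih =>
                intro x hx hu
                rw [List.isChain_cons_cons] at hx
                rw [List.mem_cons] at hu
                rcases hu with rfl | hu
                · exact ⟨x, hx.1⟩
                · exact ih y hx.2 hu
            obtain ⟨y, hy⟩ := key s x hch' hu
            exact hsource y hy
      obtain ⟨s, rfl⟩ := hhead
      have h1 : v :: t = s := by
        apply h.eq_of_key hch hch' hz hsink
        intro a ha ha1
        apply hsub.subset
        rw [arcsOf_cons_cons, List.mem_cons] at ha
        rw [hσ, List.mem_cons]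
        rcases ha with ha | ha
        · exact Or.inl ha
        · right
          rw [List.mem_filter]
          exact ⟨ha, by simpa using ha1⟩
      subst h1
      exact ⟨fun _ h => h, fun _ h => h⟩
    · rw [List.getLast?_cons_cons] at hz
      have hadj := (List.isChain_cons_cons.mp hch).1
      have h1 := h.count_key (List.isChain_cons_cons.mp hch).2 hz
      have h2 := h.bot _ _ hadj
      rw [hσ, List.length_cons]
      omega

theorem ea_le (h : Layered D m lay ρ) : D.ea ≤ m := by
  classical
  unfold LDigraph.ea
  rcases Set.eq_empty_or_nonempty {m | ∃ w, D.IsMaximalEar w ∧ D.eaOf w = m} with h0 | h0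
  · rw [h0]; simp
  apply csSup_le h0
  rintro _ ⟨w, hw, rfl⟩
  unfold LDigraph.eaOf
  split_ifs with h1
  · exact Nat.zero_le _
  · obtain ⟨σ, h2, h3⟩ := h.exists_identifying hw h1
    have h4 : sInf {m | ∃ σ, D.Identifying w σ ∧ σ.length = m} ≤ σ.length :=
      Nat.sInf_le ⟨σ, h2, rfl⟩
    exact h4.trans h3

end Layered

end Pool.Agent.MP_d91e39_lc
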