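import Mathlib

/-!
Digraphs, ears, identifying sequences, ear anonymity and linkages.
-/

namespace Pool.Agent.MP_d91e39_lc

/-- A digraph without loops and without parallel arcs. -/
structure LDigraph (V : Type*) where
  Adj : V → V → Prop
  loopless : ∀ v, ¬ Adj v v

variable {V : Type*}

namespace LDigraph

variable (D : LDigraph V)

/-- A walk: a nonempty sequence of vertices in which consecutive vertices are joined by arcs. -/
def IsWalk (w : List V) : Prop := w ≠ [] ∧ w.IsChain D.Adj

/-- A path: a walk with no repeated vertex. -/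
def IsPath (w : List V) : Prop := D.IsWalk w ∧ w.Nodup

/-- A cycle: a walk `(v_0, ..., v_l)` with `v_0 = v_l`, `l ≥ 2`, and `(v_0, ..., v_{l-1})` without
repeated vertex. -/
def IsCycle (w : List V) : Prop :=
  D.IsWalk w ∧ 3 ≤ w.length ∧ w.head? = w.getLast? ∧ w.dropLast.Nodup

/-- An ear: a path or a cycle. -/
def IsEar (w : List V) : Prop := D.IsPath w ∨ D.IsCycle w

/-- A digraph is acyclic if it has no cycle. -/
def Acyclic : Prop := ∀ w : List V, ¬ D.IsCycle w

end LDigraph

/-- The sequence of arcs of a walk. -/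
def arcsOf (w : List V) : List (V × V) := w.zip w.tail

/-- The subgraph relation between walks, seen as subgraphs. -/
def SubOf (w w' : List V) : Prop := (∀ v ∈ w, v ∈ w') ∧ ∀ a ∈ arcsOf w, a ∈ arcsOf w'

namespace LDigraph

variable (D : LDigraph V)

/-- An ear that is maximal for the subgraph relation. -/
def IsMaximalEar (w : List V) : Prop :=
  D.IsEar w ∧ ∀ w', D.IsEar w' → SubOf w w' → SubOf w' w

/-- `σ` is an identifying sequence for the ear `w`: a nonempty sequence of arcs of the ear, in the
order of the ear, such that every ear containing these arcs in this order is a subgraph of `w`.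
(For a cycle, any starting point may be chosen.) -/
def Identifying (w : List V) (σ : List (V × V)) : Prop :=
  σ ≠ [] ∧ (∃ w', D.IsEar w' ∧ SubOf w w' ∧ SubOf w' w ∧ σ.Sublist (arcsOf w')) ∧
    ∀ w', D.IsEar w' → σ.Sublist (arcsOf w') → SubOf w' w

open Classical in
/-- The ear anonymity of a maximal ear. -/
noncomputable def eaOf (w : List V) : ℕ :=
  if arcsOf w = [] then 0 else sInf {m | ∃ σ, D.Identifying w σ ∧ σ.length = m}

/-- The ear anonymity of a digraph. -/
noncomputable def ea : ℕ := sSup {m | ∃ w, D.IsMaximalEar w ∧ D.eaOf w = m}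

/-- A linkage: a set of pairwise vertex-disjoint paths. -/
def IsLinkage (P : Set (List V)) : Prop :=
  (∀ w ∈ P, D.IsPath w) ∧ ∀ w ∈ P, ∀ w' ∈ P, w ≠ w' → ∀ v ∈ w, v ∉ w'

/-- The problem LINKAGE for the family of pairs `S`: some linkage contains, for each index, a path
from the first to the second vertex of the pair. -/
def HasLinkage {ι : Type*} (S : ι → V × V) : Prop :=
  ∃ P : Set (List V), D.IsLinkage P ∧
    ∀ i, ∃ w ∈ P, w.head? = some (S i).1 ∧ w.getLast? = some (S i).2

end LDigraph

@[simp] theorem arcsOf_nil : arcsOf ([] : List V) = [] := rfl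

@[simp] theorem arcsOf_single (u : V) : arcsOf [u] = [] := rfl

@[simp] theorem arcsOf_cons_cons (u v : V) (t : List V) :
    arcsOf (u :: v :: t) = (u, v) :: arcsOf (v :: t) := rfl

theorem fst_mem_of_arc {w : List V} {a : V × V} (h : a ∈ arcsOf w) : a.1 ∈ w :=
  (List.of_mem_zip (a := a.1) (b := a.2) h).1

theorem snd_mem_of_arc {w : List V} {a : V × V} (h : a ∈ arcsOf w) : a.2 ∈ w :=
  List.mem_of_mem_tail (List.of_mem_zip (a := a.1) (b := a.2) h).2

theorem adj_of_arc {D : LDigraph V} : ∀ {w : List V}, w.IsChain D.Adj →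
    ∀ a ∈ arcsOf w, D.Adj a.1 a.2
  | [], _, a, ha => by simp at ha
  | [u], _, a, ha => by simp at ha
  | u :: v :: t, hw, a, ha => by
    rw [arcsOf_cons_cons, List.mem_cons] at ha
    rw [List.isChain_cons_cons] at hw
    rcases ha with rfl | ha
    · exact hw.1
    · exact adj_of_arc hw.2 a ha

/-- A digraph with a rank function is acyclic. -/
theorem rank_le_of_chain {D : LDigraph V} {ρ : V → ℕ} (hρ : ∀ u v, D.Adj u v → ρ u < ρ v) :
    ∀ {u : V} {t : List V}, (u :: t).IsChain D.Adj → ∀ v ∈ t, ρ u < ρ v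
  | u, [], _, v, hv => by simp at hv
  | u, x :: t, h, v, hv => by
    rw [List.isChain_cons_cons] at h
    rw [List.mem_cons] at hv
    rcases hv with rfl | hv
    · exact hρ _ _ h.1
    · exact (hρ _ _ h.1).trans (rank_le_of_chain hρ h.2 v hv)

theorem acyclic_of_rank {D : LDigraph V} {ρ : V → ℕ} (hρ : ∀ u v, D.Adj u v → ρ u < ρ v) :
    D.Acyclic := by
  rintro w ⟨⟨_, hch⟩, hlen, heq, _⟩
  match w, hlen with
  | u :: x :: t, _ =>
    have h1 := rank_le_of_chain hρ hch
    rw [List.head?_cons] at heq
    have h2 : u ∈ x :: t := by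
      have h3 : (u :: x :: t).getLast? = (x :: t).getLast? := by simp [List.getLast?_cons_cons]
      rw [h3] at heq
      exact List.mem_of_getLast? heq.symm
    exact absurd (h1 u h2) (lt_irrefl _)

theorem nodup_of_rank {D : LDigraph V} {ρ : V → ℕ} (hρ : ∀ u v, D.Adj u v → ρ u < ρ v) :
    ∀ {w : List V}, w.IsChain D.Adj → w.Nodup
  | [], _ => List.nodup_nil
  | u :: t, h => by
    rw [List.nodup_cons]
    refine ⟨fun hu => absurd (rank_le_of_chain hρ h u hu) (lt_irrefl _), ?_⟩
    exact nodup_of_rank hρ (List.IsChain.tail h)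

end Pool.Agent.MP_d91e39_lc
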