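import Pool.Agent.MP_d91e39_lc.Reduction

/-!
From a clique to a linkage.
-/

namespace Pool.Agent.MP_d91e39_lc

open Vtx Kind

variable {n k : ℕ} [NeZero k]

/-- consecutive places -/
theorem chain_finRange (N : ℕ) :
    (List.finRange N).IsChain (fun p q : Fin N => (q : ℕ) = p + 1) := by
  rw [List.isChain_iff_getElem]
  intro i hi
  simp

/-- The connector: the places `0, ..., 2 g` of a line, then the places `2 g + 2, ...` of another
one. -/
def conn (n : ℕ) (L : Kind) (i j : Fin k) (L' : Kind) (i' j' : Fin k) (g : Fin n) :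
    List (Vtx n k) :=
  ((List.finRange (2 * n + 1)).take (2 * g + 1)).map (ln L i j) ++
    ((List.finRange (2 * n + 1)).drop (2 * g + 2)).map (ln L' i' j')

theorem mem_conn {L : Kind} {i j : Fin k} {L' : Kind} {i' j' : Fin k} {g : Fin n}
    {v : Vtx n k} : v ∈ conn n L i j L' i' j' g ↔
      (∃ p : Fin (2 * n + 1), (p : ℕ) ≤ 2 * g ∧ v = ln L i j p) ∨
      (∃ p : Fin (2 * n + 1), 2 * (g : ℕ) + 2 ≤ p ∧ v = ln L' i' j' p) := by
  unfold conn
  rw [List.mem_append, List.mem_map, List.mem_map]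
  have h1 : ∀ p : Fin (2 * n + 1), p ∈ (List.finRange (2 * n + 1)).take (2 * g + 1) ↔
      (p : ℕ) ≤ 2 * g := by
    intro p
    rw [List.mem_take_iff_getElem]
    constructor
    · rintro ⟨m, hm, rfl⟩
      simp
      omega
    · intro hp
      refine ⟨p, ?_, ?_⟩
      · simp
        omega
      · simp
  have h2 : ∀ p : Fin (2 * n + 1), p ∈ (List.finRange (2 * n + 1)).drop (2 * g + 2) ↔
      2 * (g : ℕ) + 2 ≤ p := by
    intro p
    rw [List.mem_drop_iff_getElem]
    constructor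
    · rintro ⟨m, hm, rfl⟩
      simp
    · intro hp
      refine ⟨p - (2 * g + 2), ?_, ?_⟩
      · simp
        omega
      · apply Fin.ext
        simp
        omega
  constructor
  · rintro (⟨p, hp, rfl⟩ | ⟨p, hp, rfl⟩)
    · exact Or.inl ⟨p, (h1 p).mp hp, rfl⟩
    · exact Or.inr ⟨p, (h2 p).mp hp, rfl⟩
  · rintro (⟨p, hp, rfl⟩ | ⟨p, hp, rfl⟩)
    · exact Or.inl ⟨p, (h1 p).mpr hp, rfl⟩
    · exact Or.inr ⟨p, (h2 p).mpr hp, rfl⟩

theorem chain_conn (G : SimpleGraph (Fin n)) {L : Kind} {i j : Fin k} {L' : Kind}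
    {i' j' : Fin k} {g : Fin n}
    (harc : ∀ p q : Fin (2 * n + 1), (p : ℕ) = 2 * g → (q : ℕ) = 2 * g + 2 →
      Arc G (ln L i j p) (ln L' i' j' q)) :
    (conn n L i j L' i' j' g).IsChain (Arc G) := by
  unfold conn
  rw [List.isChain_append]
  refine ⟨?_, ?_, ?_⟩
  · rw [List.isChain_map]
    refine List.IsChain.imp (fun p q h => Arc.line L i j p q h) ?_
    exact List.IsChain.take (chain_finRange _) _
  · rw [List.isChain_map]
    refine List.IsChain.imp (fun p q h => Arc.line L' i' j' p q h) ?_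
    exact List.IsChain.drop (chain_finRange _) _
  · intro x hx y hy
    rw [List.getLast?_map, Option.mem_map] at hx
    rw [List.head?_map, Option.mem_map] at hy
    obtain ⟨p, hp, rfl⟩ := hx
    obtain ⟨q, hq, rfl⟩ := hy
    apply harc
    · rw [Option.mem_def, List.getLast?_take] at hp
      have hg := g.2
      rw [if_neg (by omega)] at hp
      simp only [Nat.add_sub_cancel] at hp
      have h1 : 2 * (g : ℕ) < (List.finRange (2 * n + 1)).length := by simp
      rw [List.getElem?_eq_getElem h1] at hp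
      simp at hp
      rw [← hp]
    · rw [Option.mem_def, List.head?_drop] at hq
      have hg := g.2
      have h1 : 2 * (g : ℕ) + 2 < (List.finRange (2 * n + 1)).length := by simp; omega
      rw [List.getElem?_eq_getElem h1] at hq
      simp at hq
      rw [← hq]

theorem head_conn {L : Kind} {i j : Fin k} {L' : Kind} {i' j' : Fin k} {g : Fin n} :
    (conn n L i j L' i' j' g).head? = some (ln L i j 0) := by
  unfold conn
  rw [List.finRange_succ, List.take_succ_cons, List.map_cons, List.cons_append, List.head?_cons]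

theorem last_conn {L : Kind} {i j : Fin k} {L' : Kind} {i' j' : Fin k} {g : Fin n} :
    (conn n L i j L' i' j' g).getLast? = some (ln L' i' j' (Fin.last (2 * n))) := by
  unfold conn
  have hg := g.2
  have h1 : ((List.finRange (2 * n + 1)).drop (2 * g + 2)).getLast? = some (Fin.last (2 * n)) := by
    rw [List.getLast?_drop, if_neg (by simp; omega), List.getLast?_eq_getElem?]
    simp only [List.length_finRange, Nat.add_sub_cancel]
    rw [List.getElem?_eq_getElem (by simp)]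
    simp
    rfl
  rw [List.getLast?_append, List.getLast?_map, h1]
  simp

/-- The path of a cell. -/
def cellPath (i j : Fin k) (a b : Fin n) : List (Vtx n k) :=
  [src i j, ln rowOut i j ⟨2 * a + 1, by omega⟩, ln rowIn i j ⟨2 * a + 1, by omega⟩,
    ln colOut i j ⟨2 * b + 1, by omega⟩, ln colIn i j ⟨2 * b + 1, by omega⟩, snk i j]

/-- The paths of the linkage given by the vertices `f 0, f 1, ...` of a clique. -/
def pathOf (f : Fin k → Fin n) : Fin 3 × Fin k × Fin k → List (Vtx n k)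
  | (0, i, j) => cellPath i j (f i) (f j)
  | (1, i, j) => conn n rowOut i j rowIn i (j + 1) (f i)
  | (2, i, j) => conn n colOut i j colIn (i + 1) j (f j)

theorem chain_pathOf {G : SimpleGraph (Fin n)} {f : Fin k → Fin n}
    (hf : ∀ i j, i ≠ j → G.Adj (f i) (f j)) (x : Fin 3 × Fin k × Fin k) :
    (pathOf f x).IsChain (Arc G) := by
  obtain ⟨x, i, j⟩ := x
  fin_cases x
  · change (cellPath i j (f i) (f j)).IsChain (Arc G)
    unfold cellPath
    have hA : Allowed G i j (f i) (f j) := by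
      by_cases hij : i = j
      · exact Or.inl ⟨hij, by rw [hij]⟩
      · exact Or.inr ⟨hij, hf i j hij⟩
    simp only [List.isChain_cons_cons, List.isChain_singleton, and_true]
    exact ⟨Arc.start i j _ (f i) rfl, Arc.rowStay i j _ (f i) rfl,
      Arc.cell i j _ _ (f i) (f j) rfl rfl hA, Arc.colStay i j _ (f j) rfl,
      Arc.stop i j _ (f j) rfl⟩
  · exact chain_conn G (fun p q hp hq => Arc.rowNext i j p q (f i) hp hq)
  · exact chain_conn G (fun p q hp hq => Arc.colNext i j p q (f j) hp hq)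

theorem head_pathOf (f : Fin k → Fin n) (x : Fin 3 × Fin k × Fin k) :
    (pathOf f x).head? = some (redPairs n k x).1 := by
  obtain ⟨x, i, j⟩ := x
  fin_cases x
  · rfl
  · exact head_conn
  · exact head_conn

theorem last_pathOf (f : Fin k → Fin n) (x : Fin 3 × Fin k × Fin k) :
    (pathOf f x).getLast? = some (redPairs n k x).2 := by
  obtain ⟨x, i, j⟩ := x
  fin_cases x
  · rfl
  · exact last_conn
  · exact last_conn

theorem mem_cellPath {i j : Fin k} {a b : Fin n} {v : Vtx n k} (h : v ∈ cellPath i j a b) :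
    v = src i j ∨ v = snk i j ∨
    (∃ p : Fin (2 * n + 1), (p : ℕ) = 2 * a + 1 ∧ (v = ln rowOut i j p ∨ v = ln rowIn i j p)) ∨
    (∃ p : Fin (2 * n + 1), (p : ℕ) = 2 * b + 1 ∧ (v = ln colOut i j p ∨ v = ln colIn i j p)) := by
  unfold cellPath at h
  simp only [List.mem_cons, List.not_mem_nil, or_false] at h
  rcases h with rfl | rfl | rfl | rfl | rfl | rfl
  · exact Or.inl rfl
  · exact Or.inr (Or.inr (Or.inl ⟨_, rfl, Or.inl rfl⟩))
  · exact Or.inr (Or.inr (Or.inl ⟨_, rfl, Or.inr rfl⟩))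
  · exact Or.inr (Or.inr (Or.inr ⟨_, rfl, Or.inl rfl⟩))
  · exact Or.inr (Or.inr (Or.inr ⟨_, rfl, Or.inr rfl⟩))
  · exact Or.inr (Or.inl rfl)

theorem disj_cell_conn_row {i j i' j' : Fin k} {f : Fin k → Fin n} {v : Vtx n k}
    (h : v ∈ cellPath i j (f i) (f j))
    (h' : v ∈ conn n rowOut i' j' rowIn i' (j' + 1) (f i')) : False := by
  rw [mem_conn] at h'
  rcases mem_cellPath h with rfl | rfl | ⟨p, hp, rfl | rfl⟩ | ⟨p, hp, rfl | rfl⟩ <;>
  rcases h' with ⟨q, hq, h1⟩ | ⟨q, hq, h1⟩ <;> simp at h1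
  · obtain ⟨e1, _, e3⟩ := h1
    subst e1 e3
    omega
  · obtain ⟨e1, _, e3⟩ := h1
    subst e1 e3
    omega

theorem disj_cell_conn_col {i j i' j' : Fin k} {f : Fin k → Fin n} {v : Vtx n k}
    (h : v ∈ cellPath i j (f i) (f j))
    (h' : v ∈ conn n colOut i' j' colIn (i' + 1) j' (f j')) : False := by
  rw [mem_conn] at h'
  rcases mem_cellPath h with rfl | rfl | ⟨p, hp, rfl | rfl⟩ | ⟨p, hp, rfl | rfl⟩ <;>
  rcases h' with ⟨q, hq, h1⟩ | ⟨q, hq, h1⟩ <;> simp at h1
  · obtain ⟨_, e2, e3⟩ := h1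
    subst e2 e3
    omega
  · obtain ⟨_, e2, e3⟩ := h1
    subst e2 e3
    omega

theorem disj_pathOf (f : Fin k → Fin n) (x y : Fin 3 × Fin k × Fin k) (hxy : x ≠ y)
    (v : Vtx n k) (hx : v ∈ pathOf f x) (hy : v ∈ pathOf f y) : False := by
  obtain ⟨x, i, j⟩ := x
  obtain ⟨y, i', j'⟩ := y
  fin_cases x <;> fin_cases y
  · -- two cells
    have hx' : v ∈ cellPath i j (f i) (f j) := hx
    have hy' : v ∈ cellPath i' j' (f i') (f j') := hy
    have hne : ¬ (i = i' ∧ j = j') := by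
      rintro ⟨rfl, rfl⟩
      exact hxy rfl
    apply hne
    rcases mem_cellPath hx' with rfl | rfl | ⟨p, hp, rfl | rfl⟩ | ⟨p, hp, rfl | rfl⟩ <;>
    rcases mem_cellPath hy' with h1 | h1 | ⟨q, hq, h1 | h1⟩ | ⟨q, hq, h1 | h1⟩ <;>
    simp at h1 <;> tauto
  · exact disj_cell_conn_row hx hy
  · exact disj_cell_conn_col hx hy
  · exact disj_cell_conn_row hy hx
  · have hx' : v ∈ conn n rowOut i j rowIn i (j + 1) (f i) := hx
    have hy' : v ∈ conn n rowOut i' j' rowIn i' (j' + 1) (f i') := hy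
    have hne : ¬ (i = i' ∧ j = j') := by
      rintro ⟨rfl, rfl⟩
      exact hxy rfl
    apply hne
    rw [mem_conn] at hx' hy'
    rcases hx' with ⟨p, hp, rfl⟩ | ⟨p, hp, rfl⟩ <;>
    rcases hy' with ⟨q, hq, h1⟩ | ⟨q, hq, h1⟩ <;> simp at h1 <;> tauto
  · have hx' : v ∈ conn n rowOut i j rowIn i (j + 1) (f i) := hx
    have hy' : v ∈ conn n colOut i' j' colIn (i' + 1) j' (f j') := hy
    rw [mem_conn] at hx' hy'
    rcases hx' with ⟨p, hp, rfl⟩ | ⟨p, hp, rfl⟩ <;>
    rcases hy' with ⟨q, hq, h1⟩ | ⟨q, hq, h1⟩ <;> simp at h1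
  · exact disj_cell_conn_col hy hx
  · have hx' : v ∈ conn n colOut i j colIn (i + 1) j (f j) := hx
    have hy' : v ∈ conn n rowOut i' j' rowIn i' (j' + 1) (f i') := hy
    rw [mem_conn] at hx' hy'
    rcases hx' with ⟨p, hp, rfl⟩ | ⟨p, hp, rfl⟩ <;>
    rcases hy' with ⟨q, hq, h1⟩ | ⟨q, hq, h1⟩ <;> simp at h1
  · have hx' : v ∈ conn n colOut i j colIn (i + 1) j (f j) := hx
    have hy' : v ∈ conn n colOut i' j' colIn (i' + 1) j' (f j') := hy
    have hne : ¬ (i = i' ∧ j = j') := by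
      rintro ⟨rfl, rfl⟩
      exact hxy rfl
    apply hne
    rw [mem_conn] at hx' hy'
    rcases hx' with ⟨p, hp, rfl⟩ | ⟨p, hp, rfl⟩ <;>
    rcases hy' with ⟨q, hq, h1⟩ | ⟨q, hq, h1⟩ <;> simp at h1 <;> tauto

theorem linkage_of_clique (G : SimpleGraph (Fin n)) (h : ¬ G.CliqueFree k) :
    (redDigraph k G).HasLinkage (redPairs n k) := by
  obtain ⟨s, hs⟩ : ∃ s, G.IsNClique k s := by
    by_contra hcon
    push Not at hcon
    exact h hcon
  obtain ⟨f, hf⟩ : ∃ f : Fin k → Fin n, ∀ i j, i ≠ j → G.Adj (f i) (f j) := by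
    have e : Fin k ≃ s := (Fintype.equivOfCardEq (by simp [hs.card_eq]))
    refine ⟨fun i => e i, fun i j hij => ?_⟩
    apply hs.isClique (e i).2 (e j).2
    intro h1
    exact hij (e.injective (Subtype.ext h1))
  refine ⟨Set.range (pathOf f), ⟨?_, ?_⟩, fun x => ⟨_, ⟨x, rfl⟩, head_pathOf f x, last_pathOf f x⟩⟩
  · rintro _ ⟨x, rfl⟩
    have hch := chain_pathOf hf x
    refine ⟨⟨?_, hch⟩, nodup_of_rank (layered G).rank hch⟩
    intro h0
    have h1 := head_pathOf f x
    rw [h0] at h1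
    simp at h1
  · rintro _ ⟨x, rfl⟩ _ ⟨y, rfl⟩ hne v hv hv'
    exact disj_pathOf f x y (fun h => hne (by rw [h])) v hv hv'

end Pool.Agent.MP_d91e39_lc
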