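import Pool.Agent.MP_d91e39_lc.Transfer

/-!
Instances of CLIQUE and LINKAGE, their encodings as bit strings, and the reduction.
-/

namespace Pool.Agent.MP_d91e39_lc

/-- An instance of CLIQUE with parameter `k ≥ 2`. -/
structure CliqueInst where
  n : ℕ
  k : ℕ
  two_le : 2 ≤ k
  G : SimpleGraph (Fin n)

/-- An instance of LINKAGE: a digraph on `{0, ..., N-1}` and `k` pairs of vertices. -/
structure LinkageInst where
  N : ℕ
  k : ℕ
  D : LDigraph (Fin N)
  pairs : Fin k → Fin N × Fin N

/-- The number `m` in unary, followed by an end mark. -/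
def unary (m : ℕ) : List Bool := List.replicate m true ++ [false]

open Classical in
/-- The adjacency matrix, row by row. -/
noncomputable def matrixBits {N : ℕ} (A : Fin N → Fin N → Prop) : List Bool :=
  (List.finRange N).flatMap fun u => (List.finRange N).map fun v => decide (A u v)

/-- Encoding of an instance of CLIQUE. -/
noncomputable def CliqueInst.encode (I : CliqueInst) : List Bool :=
  unary I.k ++ (unary I.n ++ matrixBits I.G.Adj)

/-- Encoding of an instance of LINKAGE. -/
noncomputable def LinkageInst.encode (I : LinkageInst) : List Bool :=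
  unary I.k ++ (unary I.N ++ ((List.finRange I.k).flatMap
    (fun i => unary (I.pairs i).1 ++ unary (I.pairs i).2) ++ matrixBits I.D.Adj))

open Vtx Kind

/-- The list of all vertices. -/
def vtxList (n k : ℕ) : List (Vtx n k) :=
  ([rowOut, rowIn, colOut, colIn].flatMap fun L => (List.finRange k).flatMap fun i =>
    (List.finRange k).flatMap fun j => (List.finRange (2 * n + 1)).map fun p => ln L i j p) ++
  (((List.finRange k).flatMap fun i => (List.finRange k).map fun j => src i j) ++
  ((List.finRange k).flatMap fun i => (List.finRange k).map fun j => snk i j))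

theorem mem_vtxList {n k : ℕ} (v : Vtx n k) : v ∈ vtxList n k := by
  unfold vtxList
  cases v with
  | src i j => simp
  | snk i j => simp
  | ln L i j p => cases L <;> simp

theorem length_vtxList (n k : ℕ) :
    (vtxList n k).length = 4 * k ^ 2 * (2 * n + 1) + 2 * k ^ 2 := by
  unfold vtxList
  simp [List.length_flatMap]
  ring

theorem nodup_vtxList (n k : ℕ) [NeZero k] : (vtxList n k).Nodup := by
  have h1 : (vtxList n k).toFinset = Finset.univ := by
    ext v
    simp [mem_vtxList v]
  have h2 : (vtxList n k).toFinset.card = (vtxList n k).length := by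
    rw [h1, Finset.card_univ, card_vtx, length_vtxList]
  have h3 : (Multiset.toFinset (vtxList n k : Multiset (Vtx n k))).card =
      Multiset.card (vtxList n k : Multiset (Vtx n k)) := by
    simpa using h2
  have h4 := Multiset.toFinset_card_eq_card_iff_nodup.mp h3
  simpa using h4

/-- The list of indices of the pairs. -/
def idxList (k : ℕ) : List (Fin 3 × Fin k × Fin k) :=
  (List.finRange 3).flatMap fun x => (List.finRange k).flatMap fun i =>
    (List.finRange k).map fun j => (x, i, j)

theorem mem_idxList {k : ℕ} (x : Fin 3 × Fin k × Fin k) : x ∈ idxList k := by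
  obtain ⟨x, i, j⟩ := x
  simp [idxList]

theorem length_idxList (k : ℕ) : (idxList k).length = 3 * k ^ 2 := by
  unfold idxList
  simp [List.length_flatMap]
  ring

/-- The numbering of the vertices. -/
def vtxEquiv (n k : ℕ) [NeZero k] : Fin (vtxList n k).length ≃ Vtx n k :=
  List.Nodup.getEquivOfForallMemList _ (nodup_vtxList n k) mem_vtxList

/-- The reduction. -/
def red (I : CliqueInst) : LinkageInst :=
  have : NeZero I.k := ⟨by have := I.two_le; omega⟩
  { N := (vtxList I.n I.k).length
    k := (idxList I.k).length
    D := (redDigraph I.k I.G).comap (vtxEquiv I.n I.k)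
    pairs := fun i =>
      ((vtxEquiv I.n I.k).symm (redPairs I.n I.k ((idxList I.k).get i)).1,
       (vtxEquiv I.n I.k).symm (redPairs I.n I.k ((idxList I.k).get i)).2) }

theorem red_N (I : CliqueInst) : (red I).N = 4 * I.k ^ 2 * (2 * I.n + 1) + 2 * I.k ^ 2 :=
  length_vtxList _ _

theorem red_k (I : CliqueInst) : (red I).k = 3 * I.k ^ 2 := length_idxList _

theorem red_layered (I : CliqueInst) : ∃ lay ρ, Layered (red I).D 5 lay ρ := by
  haveI : NeZero I.k := ⟨by have := I.two_le; omega⟩
  exact ⟨_, _, (layered I.G).comap (vtxEquiv I.n I.k)⟩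

theorem red_acyclic (I : CliqueInst) : (red I).D.Acyclic := by
  obtain ⟨lay, ρ, h⟩ := red_layered I
  exact acyclic_of_rank h.rank

theorem red_ea (I : CliqueInst) : (red I).D.ea ≤ 5 := by
  obtain ⟨lay, ρ, h⟩ := red_layered I
  exact h.ea_le

theorem red_correct (I : CliqueInst) :
    (red I).D.HasLinkage (red I).pairs ↔ ¬ I.G.CliqueFree I.k := by
  haveI : NeZero I.k := ⟨by have := I.two_le; omega⟩
  have h1 : (red I).D.HasLinkage (red I).pairs ↔
      (redDigraph I.k I.G).HasLinkage (redPairs I.n I.k) := by
    rw [← hasLinkage_comap (vtxEquiv I.n I.k) (redDigraph I.k I.G) (redPairs I.n I.k)]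
    exact hasLinkage_reindex ((redDigraph I.k I.G).comap (vtxEquiv I.n I.k))
      (fun x => ((vtxEquiv I.n I.k).symm (redPairs I.n I.k x).1,
        (vtxEquiv I.n I.k).symm (redPairs I.n I.k x).2)) (idxList I.k).get (by
          intro x
          obtain ⟨m, hm⟩ := List.get_of_mem (mem_idxList x)
          exact ⟨m, hm⟩)
  rw [h1]
  exact ⟨clique_of_linkage I.two_le I.G, linkage_of_clique I.G⟩

end Pool.Agent.MP_d91e39_lc
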