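import Pool.Agent.MP_d91e39_lc.Str
import Pool.Agent.Lib.helper60.ToTM2
import Pool.Agent.Lib.helper60.PTLib

/-!
The reduction is computable in polynomial time.
-/

set_option autoImplicit false

namespace Pool.Agent.MP_d91e39_lc

open Lib.helper60

section

variable {α : Type} [DEnc α]

lemma PT_nxt {k j : α → ℕ} (hk : PT k) (hj : PT j) : PT (fun a => nxt (k a) (j a)) := by
  unfold nxt
  exact PT.ite (PT.neq (PT.nsucc hj) hk) (PT.const 0) (PT.nsucc hj)

lemma PT_oddB {n p : α → ℕ} (hn : PT n) (hp : PT p) : PT (fun a => oddB (n a) (p a)) := by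
  unfold oddB
  exact PT.any (p := fun z : α × ℕ => decide (p z.1 = 2 * z.2 + 1)) (PT.range hn)
    (PT.neq (hp.comp PT.fst) (PT.nsucc (PT.nmul (PT.const 2) PT.snd)))

lemma PT_evenB {n p : α → ℕ} (hn : PT n) (hp : PT p) : PT (fun a => evenB (n a) (p a)) := by
  unfold evenB
  exact PT.any (p := fun z : α × ℕ => decide (p z.1 = 2 * z.2)) (PT.range hn)
    (PT.neq (hp.comp PT.fst) (PT.nmul (PT.const 2) PT.snd))

lemma PT_cellB {e : α → Env} {i j p q : α → ℕ} (he : PT e) (hi : PT i) (hj : PT j) (hp : PT p)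
    (hq : PT q) : PT (fun a => cellB (e a) (i a) (j a) (p a) (q a)) := by
  unfold cellB
  refine PT.any (p := fun z : α × ℕ => (List.range (e z.1).2.1).any fun b =>
    decide (p z.1 = 2 * z.2 + 1) && (decide (q z.1 = 2 * b + 1) &&
      (if i z.1 = j z.1 then decide (z.2 = b) else
        (e z.1).2.2.getD (z.2 * (e z.1).2.1 + b) false))) (PT.range he.p2.p1) ?_
  have he' : PT (fun z : α × ℕ => e z.1) := he.comp PT.fst
  refine PT.any (p := fun y : (α × ℕ) × ℕ =>
    decide (p y.1.1 = 2 * y.1.2 + 1) && (decide (q y.1.1 = 2 * y.2 + 1) &&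
      (if i y.1.1 = j y.1.1 then decide (y.1.2 = y.2) else
        (e y.1.1).2.2.getD (y.1.2 * (e y.1.1).2.1 + y.2) false))) (PT.range he'.p2.p1) ?_
  have h1 : PT (fun y : (α × ℕ) × ℕ => y.1.1) := PT.fst.p1
  have ha : PT (fun y : (α × ℕ) × ℕ => y.1.2) := PT.fst.p2
  have hb : PT (fun y : (α × ℕ) × ℕ => y.2) := PT.snd
  have he2 : PT (fun y : (α × ℕ) × ℕ => e y.1.1) := he.comp h1
  refine PT.band (PT.neq (hp.comp h1) (PT.nsucc (PT.nmul (PT.const 2) ha)))
    (PT.band (PT.neq (hq.comp h1) (PT.nsucc (PT.nmul (PT.const 2) hb))) ?_)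
  exact PT.ite (PT.neq (hi.comp h1) (hj.comp h1)) (PT.neq ha hb)
    (PT.getD he2.p2.p2 (PT.nadd (PT.nmul ha he2.p2.p1) hb) (PT.const false))

lemma PT_arcB {e : α → Env} {u v : α → Cd} (he : PT e) (hu : PT u) (hv : PT v) :
    PT (fun a => arcB (e a) (u a) (v a)) := by
  unfold arcB
  have ut := hu.p1
  have ui := hu.p2.p1
  have uj := hu.p2.p2.p1
  have up := hu.p2.p2.p2
  have vt := hv.p1
  have vi := hv.p2.p1
  have vj := hv.p2.p2.p1
  have vp := hv.p2.p2.p2
  have en := he.p2.p1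
  refine PT.bor (PT.band (PT.neq ui vi) (PT.band (PT.neq uj vj) ?_)) (PT.bor ?_ ?_)
  · refine PT.bor ?_ (PT.bor ?_ (PT.bor ?_ (PT.bor ?_ (PT.bor ?_ ?_))))
    · exact PT.band (PT.neq ut vt) (PT.band (PT.nle (PT.const 1) ut)
        (PT.band (PT.nle ut (PT.const 4)) (PT.neq vp (PT.nsucc up))))
    · exact PT.band (PT.neq ut (PT.const 0)) (PT.band (PT.neq vt (PT.const 1)) (PT_oddB en vp))
    · exact PT.band (PT.neq ut (PT.const 1)) (PT.band (PT.neq vt (PT.const 2))
        (PT.band (PT.neq vp up) (PT_oddB en up)))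
    · exact PT.band (PT.neq ut (PT.const 2)) (PT.band (PT.neq vt (PT.const 3))
        (PT_cellB he ui uj up vp))
    · exact PT.band (PT.neq ut (PT.const 3)) (PT.band (PT.neq vt (PT.const 4))
        (PT.band (PT.neq vp up) (PT_oddB en up)))
    · exact PT.band (PT.neq ut (PT.const 4)) (PT.band (PT.neq vt (PT.const 5)) (PT_oddB en up))
  · exact PT.band (PT.neq ut (PT.const 1)) (PT.band (PT.neq vt (PT.const 2))
      (PT.band (PT.neq vi ui) (PT.band (PT.neq vj (PT_nxt he.p1 uj))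
        (PT.band (PT.neq vp (PT.nadd up (PT.const 2))) (PT_evenB en up)))))
  · exact PT.band (PT.neq ut (PT.const 3)) (PT.band (PT.neq vt (PT.const 4))
      (PT.band (PT.neq vj uj) (PT.band (PT.neq vi (PT_nxt he.p1 ui))
        (PT.band (PT.neq vp (PT.nadd up (PT.const 2))) (PT_evenB en up)))))

lemma PT_grid {k : α → ℕ} (hk : PT k) (t : ℕ) : PT (fun a => (List.range (k a)).flatMap fun i =>
    (List.range (k a)).map fun j => ((t, i, j, 0) : Cd)) := by
  refine PT.flatMap (g := fun z : α × ℕ => (List.range (k z.1)).map fun j =>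
    ((t, z.2, j, 0) : Cd)) (PT.range hk) ?_
  exact PT.map (g := fun y : (α × ℕ) × ℕ => ((t, y.1.2, y.2, 0) : Cd))
    (PT.range (hk.comp PT.fst)) (PT.pair (PT.const t) (PT.pair PT.fst.p2
      (PT.pair PT.snd (PT.const 0))))

lemma PT_codes {n k : α → ℕ} (hn : PT n) (hk : PT k) : PT (fun a => codes (n a) (k a)) := by
  unfold codes
  refine PT.append ?_ (PT.append (PT_grid hk 0) (PT_grid hk 5))
  refine PT.flatMap (l := fun _ => [1, 2, 3, 4]) (g := fun z : α × ℕ =>
    (List.range (k z.1)).flatMap fun i => (List.range (k z.1)).flatMap fun j =>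
      (List.range (2 * n z.1 + 1)).map fun p => ((z.2, i, j, p) : Cd)) (PT.const _) ?_
  refine PT.flatMap (g := fun z : (α × ℕ) × ℕ =>
    (List.range (k z.1.1)).flatMap fun j =>
      (List.range (2 * n z.1.1 + 1)).map fun p => ((z.1.2, z.2, j, p) : Cd))
    (PT.range (hk.comp PT.fst)) ?_
  refine PT.flatMap (g := fun z : ((α × ℕ) × ℕ) × ℕ =>
      (List.range (2 * n z.1.1.1 + 1)).map fun p => ((z.1.1.2, z.1.2, z.2, p) : Cd))
    (PT.range (hk.comp PT.fst.p1)) ?_
  refine PT.map (g := fun z : (((α × ℕ) × ℕ) × ℕ) × ℕ => ((z.1.1.1.2, z.1.1.2, z.1.2, z.2) : Cd))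
    (PT.range (PT.nsucc (PT.nmul (PT.const 2) (hn.comp PT.fst.p1.p1)))) ?_
  exact PT.pair PT.fst.p1.p1.p2 (PT.pair PT.fst.p1.p2 (PT.pair PT.fst.p2 PT.snd))

lemma PT_pairCd {e : α → Env} {z : α → ℕ × ℕ × ℕ} (he : PT e) (hz : PT z) :
    PT (fun a => pairCd (e a) (z a)) := by
  unfold pairCd
  have zi := hz.p2.p1
  have zj := hz.p2.p2
  have n2 : PT (fun a => 2 * (e a).2.1) := PT.nmul (PT.const 2) he.p2.p1
  refine PT.ite (PT.neq hz.p1 (PT.const 0)) ?_ (PT.ite (PT.neq hz.p1 (PT.const 1)) ?_ ?_)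
  · exact PT.pair (PT.pair (PT.const 0) (PT.pair zi (PT.pair zj (PT.const 0))))
      (PT.pair (PT.const 5) (PT.pair zi (PT.pair zj (PT.const 0))))
  · exact PT.pair (PT.pair (PT.const 1) (PT.pair zi (PT.pair zj (PT.const 0))))
      (PT.pair (PT.const 2) (PT.pair zi (PT.pair (PT_nxt he.p1 zj) n2)))
  · exact PT.pair (PT.pair (PT.const 3) (PT.pair zi (PT.pair zj (PT.const 0))))
      (PT.pair (PT.const 4) (PT.pair (PT_nxt he.p1 zi) (PT.pair zj n2)))

lemma PT_idx3 {k : α → ℕ} (hk : PT k) : PT (fun a => idx3 (k a)) := by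
  unfold idx3
  refine PT.flatMap (g := fun z : α × ℕ => (List.range (k z.1)).flatMap fun i =>
    (List.range (k z.1)).map fun j => (z.2, i, j)) (PT.range (PT.const 3)) ?_
  refine PT.flatMap (g := fun z : (α × ℕ) × ℕ =>
    (List.range (k z.1.1)).map fun j => (z.1.2, z.2, j)) (PT.range (hk.comp PT.fst)) ?_
  exact PT.map (g := fun z : ((α × ℕ) × ℕ) × ℕ => (z.1.1.2, z.1.2, z.2))
    (PT.range (hk.comp PT.fst.p1)) (PT.pair PT.fst.p1.p2 (PT.pair PT.fst.p2 PT.snd))

lemma PT_ceq {u v : α → Cd} (hu : PT u) (hv : PT v) : PT (fun a => ceq (u a) (v a)) := by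
  unfold ceq
  exact PT.band (PT.neq hu.p1 hv.p1) (PT.band (PT.neq hu.p2.p1 hv.p2.p1)
    (PT.band (PT.neq hu.p2.p2.p1 hv.p2.p2.p1) (PT.neq hu.p2.p2.p2 hv.p2.p2.p2)))

lemma PT_place {l : α → List Cd} {c : α → Cd} (hl : PT l) (hc : PT c) :
    PT (fun a => place (l a) (c a)) := by
  unfold place
  refine PT.headD ?_ (PT.const 0)
  exact PT.filter (p := fun z : α × ℕ => ceq ((l z.1).getD z.2 (9, 0, 0, 0)) (c z.1))
    (PT.range (PT.length hl)) (PT_ceq (PT.getD (hl.comp PT.fst) PT.snd (PT.const _))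
      (hc.comp PT.fst))

lemma PT_unary {m : α → ℕ} (hm : PT m) : PT (fun a => unary (m a)) := by
  unfold unary
  exact PT.append (PT.replicate hm (PT.const true)) (PT.const [false])

lemma PT_outF {e : α → Env} (he : PT e) : PT (fun a => outF (e a)) := by
  unfold outF
  have hc : PT (fun a => codes (e a).2.1 (e a).1) := PT_codes he.p2.p1 he.p1
  refine PT.append (PT_unary (PT.length (PT_idx3 he.p1))) (PT.append (PT_unary (PT.length hc))
    (PT.append ?_ ?_))
  · refine PT.flatMap (g := fun z : α × ℕ × ℕ × ℕ =>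
      unary (place (codes (e z.1).2.1 (e z.1).1) (pairCd (e z.1) z.2).1) ++
      unary (place (codes (e z.1).2.1 (e z.1).1) (pairCd (e z.1) z.2).2)) (PT_idx3 he.p1) ?_
    have hc' : PT (fun z : α × ℕ × ℕ × ℕ => codes (e z.1).2.1 (e z.1).1) := hc.comp PT.fst
    have hp : PT (fun z : α × ℕ × ℕ × ℕ => pairCd (e z.1) z.2) :=
      PT_pairCd (he.comp PT.fst) PT.snd
    exact PT.append (PT_unary (PT_place hc' hp.p1)) (PT_unary (PT_place hc' hp.p2))
  · refine PT.flatMap (g := fun z : α × Cd =>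
      (codes (e z.1).2.1 (e z.1).1).map fun v => arcB (e z.1) z.2 v) hc ?_
    have hc' : PT (fun z : α × Cd => codes (e z.1).2.1 (e z.1).1) := hc.comp PT.fst
    exact PT.map (g := fun y : (α × Cd) × Cd => arcB (e y.1.1) y.1.2 y.2) hc'
      (PT_arcB (he.comp PT.fst.p1) PT.fst.p2 PT.snd)

end

theorem PT_readE : PT readE := by
  unfold readE
  have hs : PT (fun z : List Bool × (ℕ × ℕ × ℕ × List Bool) × Bool => rstep z.2.1 z.2.2) := by
    unfold rstep
    have s : PT (fun z : List Bool × (ℕ × ℕ × ℕ × List Bool) × Bool => z.2.1) := PT.snd.p1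
    have b : PT (fun z : List Bool × (ℕ × ℕ × ℕ × List Bool) × Bool => z.2.2) := PT.snd.p2
    refine PT.ite (PT.neq s.p1 (PT.const 0)) ?_ (PT.ite (PT.neq s.p1 (PT.const 1)) ?_ ?_)
    · refine PT.cond b ?_ ?_
      · exact PT.pair (PT.const 0) (PT.pair (PT.nsucc s.p2.p1) (PT.pair s.p2.p2.p1 s.p2.p2.p2))
      · exact PT.pair (PT.const 1) (PT.pair s.p2.p1 (PT.pair s.p2.p2.p1 s.p2.p2.p2))
    · refine PT.cond b ?_ ?_
      · exact PT.pair (PT.const 1) (PT.pair s.p2.p1 (PT.pair (PT.nsucc s.p2.p2.p1) s.p2.p2.p2))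
      · exact PT.pair (PT.const 2) (PT.pair s.p2.p1 (PT.pair s.p2.p2.p1 s.p2.p2.p2))
    · exact PT.pair (PT.const 2) (PT.pair s.p2.p1 (PT.pair s.p2.p2.p1 (PT.cons b s.p2.p2.p2)))
  have hf := PT.foldl_lin (init := fun _ : List Bool => ((0, 0, 0, []) : ℕ × ℕ × ℕ × List Bool))
    PT.id (PT.const _) hs 12 (by
      rintro x ⟨mode, a, b, M⟩ c
      have hb := tsize_bool_le c
      unfold rstep
      simp only [tsize_pair, tsize_nat]
      split_ifs
      · cases c
        · simp only [cond_false, tsize_pair, tsize_nat]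
          omega
        · simp only [cond_true, tsize_pair, tsize_nat]
          omega
      · cases c
        · simp only [cond_false, tsize_pair, tsize_nat]
          omega
        · simp only [cond_true, tsize_pair, tsize_nat]
          omega
      · simp only [tsize_pair, tsize_nat, tsize_cons]
        omega)
  exact PT.pair hf.p2.p1 (PT.pair hf.p2.p2.p1 (PT.reverse hf.p2.p2.p2))

theorem PT_stringRed : PT stringRed := by
  unfold stringRed
  exact PT_outF PT_readE

open Turing in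
/-- The reduction is computed by a Turing machine in polynomial time. -/
theorem red_polytime :
    Nonempty (TM2ComputableInPolyTime CliqueInst.encode LinkageInst.encode red) :=
  PT.toTM2 PT_stringRed stringRed_encode

end Pool.Agent.MP_d91e39_lc
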