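import Pool.Agent.MP_d91e39_lc.EaBound

/-!
The digraph of the reduction from CLIQUE.
-/

namespace Pool.Agent.MP_d91e39_lc

/-- The four kinds of lines of a cell. -/
inductive Kind
  | rowOut | rowIn | colOut | colIn
deriving DecidableEq

instance : Fintype Kind :=
  ⟨{Kind.rowOut, Kind.rowIn, Kind.colOut, Kind.colIn}, by intro x; cases x <;> simp⟩

/-- The vertices: for each cell `(i, j)` of a `k × k` grid a source, a sink and four lines with
`2 n + 1` vertices. -/
inductive Vtx (n k : ℕ)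
  | src (i j : Fin k)
  | snk (i j : Fin k)
  | ln (L : Kind) (i j : Fin k) (p : Fin (2 * n + 1))
deriving DecidableEq, Fintype

/-- The pairs of values allowed in the cell `(i, j)`. -/
def Allowed {n k : ℕ} (G : SimpleGraph (Fin n)) (i j : Fin k) (a b : Fin n) : Prop :=
  (i = j ∧ a = b) ∨ (i ≠ j ∧ G.Adj a b)

open Vtx Kind

/-- The arcs. Places with odd number `2 b + 1` on a line stand for the value `b`; places with even
number are the gaps between the values. -/
inductive Arc {n k : ℕ} [NeZero k] (G : SimpleGraph (Fin n)) : Vtx n k → Vtx n k → Prop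
  | line (L : Kind) (i j : Fin k) (p q : Fin (2 * n + 1)) (h : (q : ℕ) = p + 1) :
      Arc G (ln L i j p) (ln L i j q)
  | start (i j : Fin k) (p : Fin (2 * n + 1)) (b : Fin n) (hp : (p : ℕ) = 2 * b + 1) :
      Arc G (src i j) (ln rowOut i j p)
  | rowStay (i j : Fin k) (p : Fin (2 * n + 1)) (b : Fin n) (hp : (p : ℕ) = 2 * b + 1) :
      Arc G (ln rowOut i j p) (ln rowIn i j p)
  | rowNext (i j : Fin k) (p q : Fin (2 * n + 1)) (g : Fin n) (hp : (p : ℕ) = 2 * g)
      (hq : (q : ℕ) = 2 * g + 2) : Arc G (ln rowOut i j p) (ln rowIn i (j + 1) q)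
  | cell (i j : Fin k) (p q : Fin (2 * n + 1)) (a b : Fin n) (hp : (p : ℕ) = 2 * a + 1)
      (hq : (q : ℕ) = 2 * b + 1) (h : Allowed G i j a b) :
      Arc G (ln rowIn i j p) (ln colOut i j q)
  | colStay (i j : Fin k) (p : Fin (2 * n + 1)) (b : Fin n) (hp : (p : ℕ) = 2 * b + 1) :
      Arc G (ln colOut i j p) (ln colIn i j p)
  | colNext (i j : Fin k) (p q : Fin (2 * n + 1)) (g : Fin n) (hp : (p : ℕ) = 2 * g)
      (hq : (q : ℕ) = 2 * g + 2) : Arc G (ln colOut i j p) (ln colIn (i + 1) j q)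
  | stop (i j : Fin k) (p : Fin (2 * n + 1)) (b : Fin n) (hp : (p : ℕ) = 2 * b + 1) :
      Arc G (ln colIn i j p) (snk i j)

variable {n k : ℕ} [NeZero k]

/-- The digraph of the reduction. -/
def redDigraph (k : ℕ) [NeZero k] (G : SimpleGraph (Fin n)) : LDigraph (Vtx n k) where
  Adj := Arc G
  loopless := by
    intro v h
    cases h
    omega

/-- The `3 k ^ 2` pairs to be linked. -/
def redPairs (n k : ℕ) [NeZero k] : Fin 3 × Fin k × Fin k → Vtx n k × Vtx n k
  | (0, i, j) => (src i j, snk i j)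
  | (1, i, j) => (ln rowOut i j 0, ln rowIn i (j + 1) (Fin.last (2 * n)))
  | (2, i, j) => (ln colOut i j 0, ln colIn (i + 1) j (Fin.last (2 * n)))

/-- layers -/
def layK : Kind → ℕ
  | rowOut => 1
  | rowIn => 2
  | colOut => 3
  | colIn => 4

def lay : Vtx n k → ℕ
  | src _ _ => 0
  | snk _ _ => 5
  | ln L _ _ _ => layK L

/-- rank -/
def rk : Vtx n k → ℕ
  | src _ _ => 0
  | snk _ _ => 5 * (2 * n + 1)
  | ln L _ _ p => layK L * (2 * n + 1) + p

theorem layered (G : SimpleGraph (Fin n)) : Layered (redDigraph k G) 5 lay rk where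
  rank := by
    intro u v h
    cases h <;> simp only [rk, layK] <;> omega
  mono := by
    intro u v h
    cases h <;> simp [lay, layK]
  uniq := by
    intro u v w h1 h2 h3 h4
    cases h1 <;> simp only [lay, layK] at h3 h4 <;> try omega
    cases h2 <;> simp only [lay, layK] at h4 <;> try omega
    congr 1
    ext
    omega
  bot := by
    intro u v h
    cases h <;> simp only [lay, layK] <;> try omega
    rename_i L _ _ _ _ _
    cases L <;> simp [layK]
  top := by
    intro u v h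
    cases h <;> simp only [lay, layK] <;> try omega
    rename_i L _ _ _ _ _
    cases L <;> simp [layK]
  le := by
    intro v
    cases v <;> simp only [lay] <;> try omega
    rename_i L _ _ _
    cases L <;> simp [layK]

theorem card_vtx : Fintype.card (Vtx n k) = 4 * k ^ 2 * (2 * n + 1) + 2 * k ^ 2 := by
  have e : Vtx n k ≃ (Fin k × Fin k) ⊕ (Fin k × Fin k) ⊕ (Kind × Fin k × Fin k × Fin (2 * n + 1)) :=
    { toFun := fun v => match v with
        | src i j => Sum.inl (i, j)
        | snk i j => Sum.inr (Sum.inl (i, j))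
        | ln L i j p => Sum.inr (Sum.inr (L, i, j, p))
      invFun := fun v => match v with
        | Sum.inl (i, j) => src i j
        | Sum.inr (Sum.inl (i, j)) => snk i j
        | Sum.inr (Sum.inr (L, i, j, p)) => ln L i j p
      left_inv := by intro v; cases v <;> rfl
      right_inv := by rintro (⟨i, j⟩ | ⟨i, j⟩ | ⟨L, i, j, p⟩) <;> rfl }
  rw [Fintype.card_congr e]
  simp only [Fintype.card_sum, Fintype.card_prod, Fintype.card_fin]
  have h4 : Fintype.card Kind = 4 := rfl
  rw [h4]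
  ring

/-! ### From a linkage to a clique -/

/-- Arcs between vertices of a set. -/
def RS (G : SimpleGraph (Fin n)) (S : Set (Vtx n k)) (u v : Vtx n k) : Prop :=
  Arc G u v ∧ u ∈ S ∧ v ∈ S

open Relation

theorem refl_of_walk (G : SimpleGraph (Fin n)) {w : List (Vtx n k)} {x y : Vtx n k}
    (hw : w.IsChain (Arc G)) (hx : w.head? = some x) (hy : w.getLast? = some y) :
    ReflTransGen (RS G {v | v ∈ w}) x y := by
  have key : ∀ (w : List (Vtx n k)) (S : Set (Vtx n k)) (x y : Vtx n k), (∀ v ∈ w, v ∈ S) →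
      w.IsChain (Arc G) → w.head? = some x → w.getLast? = some y → ReflTransGen (RS G S) x y := by
    intro w
    induction w with
    | nil => intro S x y _ _ hx; simp at hx
    | cons u t ih =>
      intro S x y hS hw hx hy
      rw [List.head?_cons, Option.some_inj] at hx
      subst hx
      match t with
      | [] =>
        have : u = y := by simpa using hy
        rw [this]
      | v :: t =>
        rw [List.isChain_cons_cons] at hw
        rw [List.getLast?_cons_cons] at hy
        refine ReflTransGen.head (b := v) ⟨hw.1, hS u (by simp), hS v (by simp)⟩ ?_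
        exact ih S v y (fun z hz => hS z (List.mem_cons_of_mem _ hz)) hw.2 (by simp) hy
  exact key w _ x y (fun v hv => hv) hw hx hy

theorem lay_le_of_refl {G : SimpleGraph (Fin n)} {S : Set (Vtx n k)} {x y : Vtx n k}
    (h : ReflTransGen (RS G S) x y) : lay x ≤ lay y := by
  induction h with
  | refl => exact le_rfl
  | tail _ h2 ih => exact ih.trans ((layered G).mono _ _ h2.1)

/-- A run on a line. -/
theorem run {G : SimpleGraph (Fin n)} {S : Set (Vtx n k)} {x y : Vtx n k}
    (h : ReflTransGen (RS G S) x y) : ∀ (L : Kind) (i j : Fin k) (p : Fin (2 * n + 1)),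
    x = ln L i j p → x ∈ S →
    (∃ q, p ≤ q ∧ y = ln L i j q ∧ ∀ r, p ≤ r → r ≤ q → ln L i j r ∈ S) ∨
    (∃ q v, p ≤ q ∧ (∀ r, p ≤ r → r ≤ q → ln L i j r ∈ S) ∧ Arc G (ln L i j q) v ∧
      layK L < lay v ∧ v ∈ S ∧ ReflTransGen (RS G S) v y) := by
  induction h using ReflTransGen.head_induction_on with
  | refl =>
    intro L i j p hx hS
    refine Or.inl ⟨p, le_rfl, hx, fun r h1 h2 => ?_⟩
    rw [le_antisymm h2 h1, ← hx]
    exact hS
  | head h1 h2 ih =>
    rename_i a c
    intro L i j p hx hS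
    subst hx
    obtain ⟨hac, ha, hc⟩ := h1
    by_cases hl : layK L < lay c
    · refine Or.inr ⟨p, c, le_rfl, fun r h3 h4 => ?_, hac, hl, hc, h2⟩
      rw [le_antisymm h4 h3]
      exact ha
    · have hq : ∃ q : Fin (2 * n + 1), c = ln L i j q ∧ (q : ℕ) = p + 1 := by
        cases hac with
        | line L i j p q h => exact ⟨q, rfl, h⟩
        | rowStay => simp [lay, layK] at hl
        | rowNext => simp [lay, layK] at hl
        | cell => simp [lay, layK] at hl
        | colStay => simp [lay, layK] at hl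
        | colNext => simp [lay, layK] at hl
        | stop => simp [lay, layK] at hl
      obtain ⟨q, rfl, hq⟩ := hq
      have hle : ∀ r : Fin (2 * n + 1), p ≤ r → r = p ∨ q ≤ r := by
        intro r hr
        rcases Nat.lt_or_ge (p : ℕ) r with h3 | h3
        · right
          change (q : ℕ) ≤ r
          omega
        · left
          exact le_antisymm h3 hr
      have hpq : p ≤ q := by change (p : ℕ) ≤ q; omega
      rcases ih L i j q rfl hc with ⟨q', h3, h4, h5⟩ | ⟨q', v, h3, h4, h5, h6, h7, h8⟩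
      · refine Or.inl ⟨q', hpq.trans h3, h4, fun r h9 h10 => ?_⟩
        rcases hle r h9 with rfl | h11
        · exact ha
        · exact h5 r h11 h10
      · refine Or.inr ⟨q', v, hpq.trans h3, fun r h9 h10 => ?_, h5, h6, h7, h8⟩
        rcases hle r h9 with rfl | h11
        · exact ha
        · exact h4 r h11 h10

theorem add_one_ne (hk : 2 ≤ k) (j : Fin k) : j + 1 ≠ j := by
  intro h
  have h1 : (1 : Fin k) = 0 := by
    have h2 : j + 1 = j + 0 := by rw [h, add_zero]
    exact add_left_cancel h2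
  have h3 := congrArg Fin.val h1
  rw [Fin.val_zero, Fin.val_one', Nat.mod_eq_of_lt (by omega)] at h3
  omega

/-- The shape of a walk along a row connector. -/
theorem row_conn {G : SimpleGraph (Fin n)} {S : Set (Vtx n k)} (hk : 2 ≤ k) {i j : Fin k}
    (h : ReflTransGen (RS G S) (ln rowOut i j 0) (ln rowIn i (j + 1) (Fin.last (2 * n))))
    (hS : ln rowOut i j 0 ∈ S) :
    ∃ g : Fin n, (∀ r : Fin (2 * n + 1), (r : ℕ) ≤ 2 * g → ln rowOut i j r ∈ S) ∧
      ∀ r : Fin (2 * n + 1), 2 * (g : ℕ) + 2 ≤ r → ln rowIn i (j + 1) r ∈ S := by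
  rcases run h rowOut i j 0 rfl hS with ⟨q, _, h2, _⟩ | ⟨q, v, _, h2, h3, h4, h5, h6⟩
  · cases h2
  · have key : ∀ (j' : Fin k) (p : Fin (2 * n + 1)), v = ln rowIn i j' p →
        j' = j + 1 ∧ ∀ r : Fin (2 * n + 1), p ≤ r → ln rowIn i j' r ∈ S := by
      intro j' p hv
      rcases run h6 rowIn i j' p hv h5 with ⟨q', _, h8, h9⟩ | ⟨q', v', _, h8, h9, h10, h11, h12⟩
      · injection h8 with _ _ hj hq
        refine ⟨hj.symm, fun r hr => h9 r hr ?_⟩
        rw [← hq]
        exact Fin.le_last r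
      · have h13 := lay_le_of_refl h12
        have h14 : lay (ln rowIn i (j + 1) (Fin.last (2 * n)) : Vtx n k) = layK rowIn := rfl
        omega
    cases h3 with
    | line => exact absurd h4 (lt_irrefl _)
    | rowStay _ _ _ b hp =>
      obtain ⟨h8, _⟩ := key j q rfl
      exact absurd h8.symm (add_one_ne hk j)
    | rowNext _ _ _ q' g hp hq =>
      obtain ⟨_, h9⟩ := key (j + 1) q' rfl
      refine ⟨g, fun r hr => h2 r (Fin.zero_le r) ?_, fun r hr => h9 r ?_⟩
      · change (r : ℕ) ≤ q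
        omega
      · change (q' : ℕ) ≤ r
        omega

/-- The shape of a walk along a column connector. -/
theorem col_conn {G : SimpleGraph (Fin n)} {S : Set (Vtx n k)} (hk : 2 ≤ k) {i j : Fin k}
    (h : ReflTransGen (RS G S) (ln colOut i j 0) (ln colIn (i + 1) j (Fin.last (2 * n))))
    (hS : ln colOut i j 0 ∈ S) :
    ∃ g : Fin n, (∀ r : Fin (2 * n + 1), (r : ℕ) ≤ 2 * g → ln colOut i j r ∈ S) ∧
      ∀ r : Fin (2 * n + 1), 2 * (g : ℕ) + 2 ≤ r → ln colIn (i + 1) j r ∈ S := by
  rcases run h colOut i j 0 rfl hS with ⟨q, _, h2, _⟩ | ⟨q, v, _, h2, h3, h4, h5, h6⟩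
  · cases h2
  · have key : ∀ (i' : Fin k) (p : Fin (2 * n + 1)), v = ln colIn i' j p →
        i' = i + 1 ∧ ∀ r : Fin (2 * n + 1), p ≤ r → ln colIn i' j r ∈ S := by
      intro i' p hv
      rcases run h6 colIn i' j p hv h5 with ⟨q', _, h8, h9⟩ | ⟨q', v', _, h8, h9, h10, h11, h12⟩
      · injection h8 with _ hi _ hq
        refine ⟨hi.symm, fun r hr => h9 r hr ?_⟩
        rw [← hq]
        exact Fin.le_last r
      · have h13 := lay_le_of_refl h12
        have h14 : lay (ln colIn (i + 1) j (Fin.last (2 * n)) : Vtx n k) = layK colIn := rfl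
        omega
    cases h3 with
    | line => exact absurd h4 (lt_irrefl _)
    | colStay _ _ _ b hp =>
      obtain ⟨h8, _⟩ := key i q rfl
      exact absurd h8.symm (add_one_ne hk i)
    | colNext _ _ _ q' g hp hq =>
      obtain ⟨_, h9⟩ := key (i + 1) q' rfl
      refine ⟨g, fun r hr => h2 r (Fin.zero_le r) ?_, fun r hr => h9 r ?_⟩
      · change (r : ℕ) ≤ q
        omega
      · change (q' : ℕ) ≤ r
        omega

theorem from_colIn {G : SimpleGraph (Fin n)} {S : Set (Vtx n k)} {i j i2 j2 : Fin k}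
    {p : Fin (2 * n + 1)} (h : ReflTransGen (RS G S) (ln colIn i j p) (snk i2 j2))
    (hS : ln colIn i j p ∈ S) : i2 = i ∧ j2 = j ∧ ∃ (b : Fin n) (r : Fin (2 * n + 1)),
      p ≤ r ∧ (r : ℕ) = 2 * b + 1 ∧ ln colIn i j r ∈ S := by
  rcases run h colIn i j p rfl hS with ⟨q, _, h2, _⟩ | ⟨q, v, h1, h2, h3, h4, h5, h6⟩
  · cases h2
  · cases h3 with
    | line => exact absurd h4 (lt_irrefl _)
    | stop _ _ _ b hp =>
      rcases ReflTransGen.cases_head h6 with h7 | ⟨c, h7, _⟩
      · injection h7 with hi hj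
        exact ⟨hi.symm, hj.symm, b, q, h1, hp, h2 q h1 le_rfl⟩
      · exact absurd ((layered G).top _ _ h7.1) (by simp [lay])

theorem from_colOut {G : SimpleGraph (Fin n)} {S : Set (Vtx n k)} {i j i2 j2 : Fin k}
    {p : Fin (2 * n + 1)} (h : ReflTransGen (RS G S) (ln colOut i j p) (snk i2 j2))
    (hS : ln colOut i j p ∈ S) : j2 = j ∧ (i2 = i + 1 ∨ (i2 = i ∧ ∃ (b : Fin n)
      (r : Fin (2 * n + 1)), p ≤ r ∧ (r : ℕ) = 2 * b + 1 ∧ ln colIn i j r ∈ S)) := by
  rcases run h colOut i j p rfl hS with ⟨q, _, h2, _⟩ | ⟨q, v, h1, h2, h3, h4, h5, h6⟩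
  · cases h2
  · cases h3 with
    | line => exact absurd h4 (lt_irrefl _)
    | colStay _ _ _ b hp =>
      obtain ⟨h7, h8, b', r, h9, h10, h11⟩ := from_colIn h6 h5
      exact ⟨h8, Or.inr ⟨h7, b', r, h1.trans h9, h10, h11⟩⟩
    | colNext _ _ _ q' g hp hq =>
      obtain ⟨h7, h8, _⟩ := from_colIn h6 h5
      exact ⟨h8, Or.inl h7⟩

theorem from_rowIn {G : SimpleGraph (Fin n)} {S : Set (Vtx n k)} {i j i2 j2 : Fin k}
    {p : Fin (2 * n + 1)} (h : ReflTransGen (RS G S) (ln rowIn i j p) (snk i2 j2))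
    (hS : ln rowIn i j p ∈ S) : ∃ (a b : Fin n) (r s : Fin (2 * n + 1)), p ≤ r ∧
      (r : ℕ) = 2 * a + 1 ∧ (s : ℕ) = 2 * b + 1 ∧ ln rowIn i j r ∈ S ∧ ln colOut i j s ∈ S ∧
      Allowed G i j a b ∧ j2 = j ∧ (i2 = i + 1 ∨ (i2 = i ∧ ∃ (b' : Fin n)
      (r' : Fin (2 * n + 1)), s ≤ r' ∧ (r' : ℕ) = 2 * b' + 1 ∧ ln colIn i j r' ∈ S)) := by
  rcases run h rowIn i j p rfl hS with ⟨q, _, h2, _⟩ | ⟨q, v, h1, h2, h3, h4, h5, h6⟩
  · cases h2
  · cases h3 with
    | line => exact absurd h4 (lt_irrefl _)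
    | cell _ _ _ s a b hp hq hA =>
      obtain ⟨h7, h8⟩ := from_colOut h6 h5
      exact ⟨a, b, q, s, h1, hp, hq, h2 q h1 le_rfl, h5, hA, h7, h8⟩

/-- The shape of a walk from the source to the sink of a cell. -/
theorem cell_conn {G : SimpleGraph (Fin n)} {S : Set (Vtx n k)} (hk : 2 ≤ k) {i j : Fin k}
    (h : ReflTransGen (RS G S) (src i j) (snk i j)) :
    ∃ (b₀ a b b' : Fin n) (r₀ r s r' : Fin (2 * n + 1)), b₀ ≤ a ∧ b ≤ b' ∧ Allowed G i j a b ∧
      (r₀ : ℕ) = 2 * b₀ + 1 ∧ (r : ℕ) = 2 * a + 1 ∧ (s : ℕ) = 2 * b + 1 ∧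
      (r' : ℕ) = 2 * b' + 1 ∧ ln rowOut i j r₀ ∈ S ∧ ln rowIn i j r ∈ S ∧
      ln colOut i j s ∈ S ∧ ln colIn i j r' ∈ S := by
  rcases ReflTransGen.cases_head h with h1 | ⟨c, ⟨h1, _, hc⟩, h2⟩
  · cases h1
  · cases h1 with
    | start _ _ r₀ b₀ hp =>
      rcases run h2 rowOut i j r₀ rfl hc with ⟨q, _, h3, _⟩ | ⟨q, v, h3, h4, h5, h6, h7, h8⟩
      · cases h3
      · cases h5 with
        | line => exact absurd h6 (lt_irrefl _)
        | rowStay _ _ _ b₁ hq =>
          obtain ⟨a, b, r, s, g1, g2, g3, g4, g5, g6, _, g8⟩ := from_rowIn h8 h7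
          rcases g8 with g8 | ⟨_, b', r', g9, g10, g11⟩
          · exact absurd g8.symm (add_one_ne hk i)
          · refine ⟨b₀, a, b, b', r₀, r, s, r', ?_, ?_, g6, hp, g2, g3, g10, hc, g4, g5, g11⟩
            · have e1 : (r₀ : ℕ) ≤ r := h3.trans g1
              change (b₀ : ℕ) ≤ a
              omega
            · have e1 : (s : ℕ) ≤ r' := g9
              change (b : ℕ) ≤ b'
              omega
        | rowNext _ _ _ q' g hp' hq' =>
          obtain ⟨_, _, _, _, _, _, _, _, _, _, g7, _⟩ := from_rowIn h8 h7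
          exact absurd g7.symm (add_one_ne hk j)

/-- A function on a cycle that never increases is constant. -/
theorem const_of_cyclic (g : Fin k → ℕ) (hg : ∀ j, g (j + 1) ≤ g j) : ∀ j, g (j + 1) = g j := by
  have h1 : ∑ j, g (j + 1) = ∑ j, g j := Equiv.sum_comp (Equiv.addRight (1 : Fin k)) g
  have h2 := (Finset.sum_eq_sum_iff_of_le (fun j _ => hg j)).mp h1
  exact fun j => h2 j (Finset.mem_univ j)

theorem clique_of_linkage (hk : 2 ≤ k) (G : SimpleGraph (Fin n))
    (h : (redDigraph k G).HasLinkage (redPairs n k)) : ¬ G.CliqueFree k := by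
  obtain ⟨P, ⟨hpath, hdisj⟩, hP⟩ := h
  choose w hwP hwh hwl using hP
  have hinj : ∀ x y, x ≠ y → w x ≠ w y := by
    intro x y hxy hw
    apply hxy
    have h1 := hwh x
    rw [hw, hwh y, Option.some_inj] at h1
    obtain ⟨x0, x1, x2⟩ := x
    obtain ⟨y0, y1, y2⟩ := y
    fin_cases x0 <;> fin_cases y0 <;> simp [redPairs] at h1 <;> simp [h1]
  have hdis : ∀ x y, x ≠ y → ∀ v ∈ w x, v ∉ w y := fun x y hxy =>
    hdisj _ (hwP x) _ (hwP y) (hinj x y hxy)
  have hrefl : ∀ x, ReflTransGen (RS G {v | v ∈ w x}) (redPairs n k x).1 (redPairs n k x).2 :=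
    fun x => refl_of_walk G (hpath _ (hwP x)).1.2 (hwh x) (hwl x)
  have hmem : ∀ x, (redPairs n k x).1 ∈ w x := fun x => List.mem_of_head? (hwh x)
  have hrow := fun i j => row_conn hk (i := i) (j := j) (hrefl (1, i, j)) (hmem (1, i, j))
  have hcol := fun i j => col_conn hk (i := i) (j := j) (hrefl (2, i, j)) (hmem (2, i, j))
  have hcell := fun i j => cell_conn hk (i := i) (j := j) (hrefl (0, i, j))
  choose g hg1 hg2 using hrow
  choose f hf1 hf2 using hcol
  choose b₀ a b b' r₀ r s r' e1 e2 e3 e4 e5 e6 e7 e8 e9 e10 e11 using hcell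
  have k1 : ∀ i j, (g i j : ℕ) ≤ b₀ i j := by
    intro i j
    by_contra hcon
    exact hdis (1, i, j) (0, i, j) (by simp) _ (hg1 i j (r₀ i j) (by rw [e4]; omega)) (e8 i j)
  have k2 : ∀ i j, (a i (j + 1) : ℕ) ≤ g i j := by
    intro i j
    by_contra hcon
    exact hdis (1, i, j) (0, i, j + 1) (by simp) _ (hg2 i j (r i (j + 1)) (by rw [e5]; omega))
      (e9 i (j + 1))
  have k3 : ∀ i j, (f i j : ℕ) ≤ b i j := by
    intro i j
    by_contra hcon
    exact hdis (2, i, j) (0, i, j) (by simp) _ (hf1 i j (s i j) (by rw [e6]; omega)) (e10 i j)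
  have k4 : ∀ i j, (b' (i + 1) j : ℕ) ≤ f i j := by
    intro i j
    by_contra hcon
    exact hdis (2, i, j) (0, i + 1, j) (by simp) _ (hf2 i j (r' (i + 1) j) (by rw [e7]; omega))
      (e11 (i + 1) j)
  have e1' : ∀ i j, (b₀ i j : ℕ) ≤ a i j := e1
  have e2' : ∀ i j, (b i j : ℕ) ≤ b' i j := e2
  have c1 : ∀ i j, (g i (j + 1) : ℕ) = g i j := by
    intro i
    apply const_of_cyclic (fun j => (g i j : ℕ))
    intro j
    exact ((k1 i (j + 1)).trans (e1' i (j + 1))).trans (k2 i j)
  have c2 : ∀ i j, (f (i + 1) j : ℕ) = f i j := by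
    intro i j
    exact const_of_cyclic (fun i => (f i j : ℕ))
      (fun i => ((k3 (i + 1) j).trans (e2' (i + 1) j)).trans (k4 i j)) i
  have d1 : ∀ i j, a i (j + 1) = g i (j + 1) := by
    intro i j
    apply Fin.ext
    have h1 := k1 i (j + 1)
    have h2 := e1' i (j + 1)
    have h3 := k2 i j
    have h4 := c1 i j
    omega
  have d2 : ∀ i j, b (i + 1) j = f (i + 1) j := by
    intro i j
    apply Fin.ext
    have h1 := k3 (i + 1) j
    have h2 := e2' (i + 1) j
    have h3 := k4 i j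
    have h4 := c2 i j
    omega
  have d1' : ∀ i j, a i j = g i j := by
    intro i j
    have := d1 i (j - 1)
    rwa [sub_add_cancel] at this
  have d2' : ∀ i j, b i j = f i j := by
    intro i j
    have := d2 (i - 1) j
    rwa [sub_add_cancel] at this
  -- constants along rows and columns
  have key : ∀ (u : Fin k → Fin n), (∀ j, (u (j + 1) : ℕ) = u j) → ∀ j, u j = u 0 := by
    intro u hu j
    have h1 : ∀ m : ℕ, ∀ hm : m < k, u ⟨m, hm⟩ = u 0 := by
      intro m
      induction m with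
      | zero => intro hm; congr 1
      | succ m ih =>
        intro hm
        have h2 := hu ⟨m, by omega⟩
        have h3 : (⟨m, by omega⟩ : Fin k) + 1 = ⟨m + 1, hm⟩ := by
          apply Fin.ext
          rw [Fin.val_add, Fin.val_one', Nat.mod_eq_of_lt (by omega : 1 < k)]
          exact Nat.mod_eq_of_lt hm
        rw [h3] at h2
        rw [Fin.ext h2]
        exact ih (by omega)
    exact h1 j j.2
  have hg : ∀ i j, g i j = g i 0 := fun i => key (g i) (c1 i)
  have hf : ∀ i j, f i j = f 0 j := fun i j => key (fun i => f i j) (fun i => c2 i j) i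
  have hA : ∀ i j, Allowed G i j (g i 0) (f 0 j) := by
    intro i j
    have := e3 i j
    rwa [d1', d2', hg, hf] at this
  have hdiag : ∀ i, g i 0 = f 0 i := by
    intro i
    rcases hA i i with h1 | h1
    · exact h1.2
    · exact absurd rfl h1.1
  have hadj : ∀ i j, i ≠ j → G.Adj (g i 0) (g j 0) := by
    intro i j hij
    rcases hA i j with h1 | h1
    · exact absurd h1.1 hij
    · rw [hdiag j]; exact h1.2
  have hinj' : Function.Injective (fun i => g i 0) := by
    intro i j hij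
    by_contra hne
    have h1 := hadj i j hne
    simp only at hij
    rw [hij] at h1
    exact G.loopless.irrefl _ h1
  intro hfree
  refine hfree (Finset.univ.map ⟨fun i => g i 0, hinj'⟩) ⟨?_, by simp⟩
  intro x hx y hy hxy
  simp only [Finset.coe_map, Set.mem_image, Function.Embedding.coeFn_mk] at hx hy
  obtain ⟨i, _, rfl⟩ := hx
  obtain ⟨j, _, rfl⟩ := hy
  exact hadj i j (fun h => hxy (by rw [h]))

end Pool.Agent.MP_d91e39_lc
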