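import Pool.Agent.MP_d91e39_lc.Code

/-!
The reduction as a function on bit strings.
-/

namespace Pool.Agent.MP_d91e39_lc

open Vtx Kind

/-! ### reading the input -/

/-- One step of the reader. -/
def rstep (s : ℕ × ℕ × ℕ × List Bool) (b : Bool) : ℕ × ℕ × ℕ × List Bool :=
  if s.1 = 0 then (bif b then (0, s.2.1 + 1, s.2.2.1, s.2.2.2) else (1, s.2.1, s.2.2.1, s.2.2.2))
  else if s.1 = 1 then (bif b then (1, s.2.1, s.2.2.1 + 1, s.2.2.2)
    else (2, s.2.1, s.2.2.1, s.2.2.2))
  else (2, s.2.1, s.2.2.1, b :: s.2.2.2)

/-- The reader. -/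
def readE (w : List Bool) : Env :=
  ((w.foldl rstep (0, 0, 0, [])).2.1, (w.foldl rstep (0, 0, 0, [])).2.2.1,
    (w.foldl rstep (0, 0, 0, [])).2.2.2.reverse)

theorem rstep_zero (m : ℕ) : ∀ (a b : ℕ) (M w : List Bool),
    (unary m ++ w).foldl rstep (0, a, b, M) = w.foldl rstep (1, a + m, b, M) := by
  induction m with
  | zero => intro a b M w; simp [unary, rstep]
  | succ m ih =>
    intro a b M w
    have h1 : unary (m + 1) ++ w = true :: (unary m ++ w) := by
      simp [unary, List.replicate_succ]
    rw [h1, List.foldl_cons]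
    have h2 : rstep (0, a, b, M) true = (0, a + 1, b, M) := by simp [rstep]
    rw [h2, ih, show a + 1 + m = a + (m + 1) by ring]

theorem rstep_one (m : ℕ) : ∀ (a b : ℕ) (M w : List Bool),
    (unary m ++ w).foldl rstep (1, a, b, M) = w.foldl rstep (2, a, b + m, M) := by
  induction m with
  | zero => intro a b M w; simp [unary, rstep]
  | succ m ih =>
    intro a b M w
    have h1 : unary (m + 1) ++ w = true :: (unary m ++ w) := by
      simp [unary, List.replicate_succ]
    rw [h1, List.foldl_cons]
    have h2 : rstep (1, a, b, M) true = (1, a, b + 1, M) := by simp [rstep]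
    rw [h2, ih, show b + 1 + m = b + (m + 1) by ring]

theorem rstep_two (w : List Bool) : ∀ (a b : ℕ) (M : List Bool),
    w.foldl rstep (2, a, b, M) = (2, a, b, w.reverse ++ M) := by
  induction w with
  | nil => intro a b M; rfl
  | cons c w ih =>
    intro a b M
    rw [List.foldl_cons]
    have h2 : rstep (2, a, b, M) c = (2, a, b, c :: M) := by simp [rstep]
    rw [h2, ih]
    simp

theorem readE_encode (I : CliqueInst) : readE I.encode = envOf I.k I.G := by
  unfold readE CliqueInst.encode
  rw [rstep_zero, rstep_one, rstep_two]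
  simp [envOf]

/-! ### writing the output -/

/-- The codes of the ends of a pair. -/
def pairCd (e : Env) (z : ℕ × ℕ × ℕ) : Cd × Cd :=
  if z.1 = 0 then ((0, z.2.1, z.2.2, 0), (5, z.2.1, z.2.2, 0))
  else if z.1 = 1 then ((1, z.2.1, z.2.2, 0), (2, z.2.1, nxt e.1 z.2.2, 2 * e.2.1))
  else ((3, z.2.1, z.2.2, 0), (4, nxt e.1 z.2.1, z.2.2, 2 * e.2.1))

/-- The names of the pairs. -/
def idx3 (k : ℕ) : List (ℕ × ℕ × ℕ) :=
  (List.range 3).flatMap fun x => (List.range k).flatMap fun i =>
    (List.range k).map fun j => (x, i, j)

/-- Equality of codes. -/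
def ceq (u v : Cd) : Bool :=
  decide (u.1 = v.1) && (decide (u.2.1 = v.2.1) && (decide (u.2.2.1 = v.2.2.1) &&
    decide (u.2.2.2 = v.2.2.2)))

theorem ceq_iff (u v : Cd) : ceq u v = true ↔ u = v := by
  obtain ⟨a, b, c, d⟩ := u
  obtain ⟨a', b', c', d'⟩ := v
  simp [ceq]

/-- The place of a code in a list. -/
def place (l : List Cd) (c : Cd) : ℕ :=
  ((List.range l.length).filter fun m => ceq (l.getD m (9, 0, 0, 0)) c).headD 0

/-- The output. -/
def outF (e : Env) : List Bool :=
  unary (idx3 e.1).length ++ (unary (codes e.2.1 e.1).length ++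
    ((idx3 e.1).flatMap (fun z => unary (place (codes e.2.1 e.1) (pairCd e z).1) ++
      unary (place (codes e.2.1 e.1) (pairCd e z).2)) ++
    (codes e.2.1 e.1).flatMap fun u => (codes e.2.1 e.1).map fun v => arcB e u v))

theorem place_eq {l : List Cd} (hl : l.Nodup) (m : Fin l.length) : place l (l.get m) = m := by
  unfold place
  have hm : (m : ℕ) ∈ (List.range l.length).filter
      fun m' => ceq (l.getD m' (9, 0, 0, 0)) (l.get m) := by
    rw [List.mem_filter, List.mem_range, ceq_iff]
    refine ⟨m.isLt, ?_⟩
    rw [List.getD_eq_getElem _ _ m.isLt]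
    rfl
  have hall : ∀ m' ∈ (List.range l.length).filter
      (fun m' => ceq (l.getD m' (9, 0, 0, 0)) (l.get m)), m' = (m : ℕ) := by
    intro m' h
    rw [List.mem_filter, List.mem_range, ceq_iff] at h
    obtain ⟨h1, h2⟩ := h
    rw [List.getD_eq_getElem _ _ h1] at h2
    have h3 : l.get ⟨m', h1⟩ = l.get m := h2
    have h4 := List.Nodup.injective_get hl h3
    exact congrArg Fin.val h4
  revert hm hall
  cases (List.range l.length).filter (fun m' => ceq (l.getD m' (9, 0, 0, 0)) (l.get m)) with
  | nil => intro hm; simp at hm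
  | cons a t => intro _ hall; exact hall a (by simp)

theorem idx3_eq (k : ℕ) : (idxList k).map (fun x => ((x.1 : ℕ), (x.2.1 : ℕ), (x.2.2 : ℕ))) =
    idx3 k := by
  unfold idxList idx3
  simp only [List.map_flatMap, List.map_map, Function.comp_def]
  rw [← flatMap_finRange]
  congr 1
  funext x
  rw [← flatMap_finRange]
  congr 1
  funext i
  rw [← map_finRange]

theorem pairCd_eq {n k : ℕ} [NeZero k] (G : SimpleGraph (Fin n)) (x : Fin 3 × Fin k × Fin k) :
    pairCd (envOf k G) (x.1, x.2.1, x.2.2) =
      ((redPairs n k x).1.code, (redPairs n k x).2.code) := by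
  obtain ⟨x, i, j⟩ := x
  fin_cases x
  · rfl
  · simp [pairCd, redPairs, code, layK, envOf, nxt_eq]
  · simp [pairCd, redPairs, code, layK, envOf, nxt_eq]

theorem vtxEquiv_apply (n k : ℕ) [NeZero k] (m : Fin (vtxList n k).length) :
    vtxEquiv n k m = (vtxList n k).get m := rfl

theorem nodup_codes (n k : ℕ) [NeZero k] : (codes n k).Nodup := by
  rw [← map_code]
  exact (nodup_vtxList n k).map (code_injective n k)

theorem place_codes (n k : ℕ) [NeZero k] (v : Vtx n k) :
    place (codes n k) v.code = ((vtxEquiv n k).symm v : ℕ) := by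
  have h0 : (codes n k).length = (vtxList n k).length := by
    rw [← map_code, List.length_map]
  have h1 : (codes n k).get (Fin.cast h0.symm ((vtxEquiv n k).symm v)) = v.code := by
    have h2 : (vtxList n k).get ((vtxEquiv n k).symm v) = v := by
      rw [← vtxEquiv_apply, Equiv.apply_symm_apply]
    conv_rhs => rw [← h2]
    simp only [← map_code, List.get_eq_getElem, List.getElem_map, Fin.val_cast]
  rw [← h1, place_eq (nodup_codes n k)]
  simp

theorem finRange_flatMap_get {α β : Type*} (l : List α) (f : α → List β) :
    (List.finRange l.length).flatMap (fun i => f (l.get i)) = l.flatMap f := by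
  conv_rhs => rw [← List.map_get_finRange l]
  rw [List.flatMap_map]

theorem outF_eq (I : CliqueInst) : outF (envOf I.k I.G) = (red I).encode := by
  classical
  have : NeZero I.k := ⟨by have := I.two_le; omega⟩
  have h0 : (codes I.n I.k).length = (vtxList I.n I.k).length := by
    rw [← map_code, List.length_map]
  have h1 : (idx3 I.k).length = (idxList I.k).length := by
    rw [← idx3_eq, List.length_map]
  have e1 : (envOf I.k I.G).1 = I.k := rfl
  have e2 : (envOf I.k I.G).2.1 = I.n := rfl
  unfold outF LinkageInst.encode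
  rw [e1, e2, h0, h1]
  have hk : (red I).k = (idxList I.k).length := rfl
  have hN : (red I).N = (vtxList I.n I.k).length := rfl
  congr 1
  congr 1
  congr 1
  · rw [← idx3_eq, List.flatMap_map]
    change _ = (List.finRange (idxList I.k).length).flatMap (fun i =>
      (fun x => unary ((vtxEquiv I.n I.k).symm (redPairs I.n I.k x).1) ++
        unary ((vtxEquiv I.n I.k).symm (redPairs I.n I.k x).2)) ((idxList I.k).get i))
    rw [finRange_flatMap_get (idxList I.k) (fun x =>
      unary ((vtxEquiv I.n I.k).symm (redPairs I.n I.k x).1) ++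
        unary ((vtxEquiv I.n I.k).symm (redPairs I.n I.k x).2))]
    congr 1
    funext x
    rw [pairCd_eq, place_codes, place_codes]
  · unfold matrixBits
    have h2 : ∀ u v : Fin (vtxList I.n I.k).length,
        decide ((red I).D.Adj u v) = arcB (envOf I.k I.G) ((vtxList I.n I.k).get u).code
          ((vtxList I.n I.k).get v).code := by
      intro u v
      rw [Bool.eq_iff_iff, decide_eq_true_eq, arcB_iff]
      rfl
    have h4 : (fun u : Fin (vtxList I.n I.k).length =>
        (List.finRange (vtxList I.n I.k).length).map fun v => decide ((red I).D.Adj u v)) =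
        fun u => (List.finRange (vtxList I.n I.k).length).map fun v =>
          arcB (envOf I.k I.G) ((vtxList I.n I.k).get u).code ((vtxList I.n I.k).get v).code := by
      funext u
      congr 1
      funext v
      exact h2 u v
    change _ = (List.finRange (vtxList I.n I.k).length).flatMap
      (fun u : Fin (vtxList I.n I.k).length =>
        (List.finRange (vtxList I.n I.k).length).map fun v => decide ((red I).D.Adj u v))
    rw [h4]
    rw [finRange_flatMap_get (vtxList I.n I.k) (fun u =>
      (List.finRange (vtxList I.n I.k).length).map fun v =>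
        arcB (envOf I.k I.G) u.code ((vtxList I.n I.k).get v).code)]
    have h3 : ∀ u : Vtx I.n I.k, ((List.finRange (vtxList I.n I.k).length).map fun v =>
        arcB (envOf I.k I.G) u.code ((vtxList I.n I.k).get v).code) =
        (codes I.n I.k).map fun c => arcB (envOf I.k I.G) u.code c := by
      intro u
      rw [← map_code, List.map_map]
      conv_rhs => rw [← List.map_get_finRange (vtxList I.n I.k)]
      rw [List.map_map]
      rfl
    simp only [h3]
    conv_lhs => rw [← map_code, List.flatMap_map]
    rw [map_code]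

/-- The reduction on bit strings. -/
def stringRed (w : List Bool) : List Bool := outF (readE w)

theorem stringRed_encode (I : CliqueInst) : stringRed I.encode = (red I).encode := by
  unfold stringRed
  rw [readE_encode, outF_eq]

end Pool.Agent.MP_d91e39_lc
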