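import Pool.Agent.MP_d91e39_lc.Forward

/-!
Renaming the vertices of a digraph.
-/

namespace Pool.Agent.MP_d91e39_lc

variable {V W : Type*}

/-- The digraph obtained by renaming vertices. -/
def LDigraph.comap (e : W ≃ V) (D : LDigraph V) : LDigraph W where
  Adj := fun u v => D.Adj (e u) (e v)
  loopless := fun v => D.loopless (e v)

theorem Layered.comap {D : LDigraph V} {m : ℕ} {lay ρ : V → ℕ} (h : Layered D m lay ρ)
    (e : W ≃ V) : Layered (D.comap e) m (lay ∘ e) (ρ ∘ e) where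
  rank := fun u v huv => h.rank _ _ huv
  mono := fun u v huv => h.mono _ _ huv
  uniq := fun u v w h1 h2 h3 h4 => e.injective (h.uniq _ _ _ h1 h2 h3 h4)
  bot := fun u v huv => h.bot _ _ huv
  top := fun u v huv => h.top _ _ huv
  le := fun v => h.le _

theorem isPath_comap (e : W ≃ V) (D : LDigraph V) (w : List W) :
    (D.comap e).IsPath w ↔ D.IsPath (w.map e) := by
  unfold LDigraph.IsPath LDigraph.IsWalk
  rw [List.isChain_map, List.nodup_map_iff e.injective]
  simp [LDigraph.comap]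

theorem hasLinkage_comap {ι : Type*} (e : W ≃ V) (D : LDigraph V) (S : ι → V × V) :
    (D.comap e).HasLinkage (fun i => (e.symm (S i).1, e.symm (S i).2)) ↔ D.HasLinkage S := by
  constructor
  · rintro ⟨P, ⟨h1, h2⟩, h3⟩
    refine ⟨(List.map e) '' P, ⟨?_, ?_⟩, ?_⟩
    · rintro _ ⟨w, hw, rfl⟩
      exact (isPath_comap e D w).mp (h1 w hw)
    · rintro _ ⟨w, hw, rfl⟩ _ ⟨w', hw', rfl⟩ hne v hv hv'
      rw [List.mem_map] at hv hv'
      obtain ⟨x, hx, rfl⟩ := hv
      obtain ⟨y, hy, hxy⟩ := hv'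
      rw [e.injective hxy] at hy
      exact h2 w hw w' hw' (fun h => hne (by rw [h])) x hx hy
    · intro i
      obtain ⟨w, hw, hh, hl⟩ := h3 i
      refine ⟨w.map e, ⟨w, hw, rfl⟩, ?_, ?_⟩
      · rw [List.head?_map, hh]; simp
      · rw [List.getLast?_map, hl]; simp
  · rintro ⟨P, ⟨h1, h2⟩, h3⟩
    refine ⟨(List.map e) ⁻¹' P, ⟨?_, ?_⟩, ?_⟩
    · intro w hw
      exact (isPath_comap e D w).mpr (h1 _ hw)
    · intro w hw w' hw' hne v hv hv'
      refine h2 _ hw _ hw' (fun h => hne ?_) (e v) (List.mem_map_of_mem hv)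
        (List.mem_map_of_mem hv')
      exact List.map_injective_iff.mpr e.injective h
    · intro i
      obtain ⟨w, hw, hh, hl⟩ := h3 i
      refine ⟨w.map e.symm, ?_, ?_, ?_⟩
      · change (w.map e.symm).map e ∈ P
        rw [List.map_map]
        simpa using hw
      · rw [List.head?_map, hh]; simp
      · rw [List.getLast?_map, hl]; simp

theorem hasLinkage_reindex {ι κ : Type*} (D : LDigraph V) (S : ι → V × V) (f : κ → ι)
    (hf : Function.Surjective f) : D.HasLinkage (S ∘ f) ↔ D.HasLinkage S := by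
  unfold LDigraph.HasLinkage
  constructor
  · rintro ⟨P, h1, h2⟩
    refine ⟨P, h1, fun i => ?_⟩
    obtain ⟨j, rfl⟩ := hf i
    exact h2 j
  · rintro ⟨P, h1, h2⟩
    exact ⟨P, h1, fun j => h2 (f j)⟩

end Pool.Agent.MP_d91e39_lc
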